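import Pool.Agent.H66.PB2.Defs

/-!
# Property B, version 2: module Calm, (3e)-(3g)

For a relevant pair `(A, w)` at level `s` the factor `e^{-def(s)} / S_s` is bounded by `GG`.
-/

namespace PropB2

noncomputable section

open Finset Classical PropB

variable {V : Type*} [Fintype V] [DecidableEq V] {n : ℕ}

theorem Calm_lev_of_klt {ix : V → ℕ} {ω : Cfg V n} {v w : V} (h : klt ix ω v w) :
    lev ω v ≤ lev ω w := by
  rcases h with h | h
  · exact h.le
  · exact h.1.le

theorem Calm_exists_low (ix : V → ℕ) (hix : Function.Injective ix) (ω : Cfg V n) (A : Finset V)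
    (hA : A.Nonempty) : ∃ w, IsLow ix ω A w := by
  obtain ⟨w, hw, hmin⟩ := Finset.exists_min_image A (fun v => toLex (lev ω v, ix v)) hA
  refine ⟨w, hw, fun v hv hne => ?_⟩
  have h := hmin v hv
  rw [Prod.Lex.toLex_le_toLex] at h
  rcases h with h | h
  · exact Or.inl h
  · refine Or.inr ⟨h.1, lt_of_le_of_ne h.2 ?_⟩
    intro he
    exact hne (hix he).symm

theorem Calm_low_unique {ix : V → ℕ} {ω : Cfg V n} {A : Finset V} {w w' : V}
    (h : IsLow ix ω A w) (h' : IsLow ix ω A w') : w = w' := by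
  by_contra hne
  have h1 := h.2 w' h'.1 (fun he => hne he.symm)
  have h2 := h'.2 w h.1 hne
  unfold klt at h1 h2
  omega

/-- a flip at level `s` is relevant at level `s` -/
theorem Calm_rel_of_flip {ix : V → ℕ} {g : ℕ} {c : Bool} {ω : Cfg V n} {A : Finset V} {u : V}
    {s : ℕ} (hc : ∀ v ∈ A, col ω v = c) {w : V} (hw : IsLow ix ω A w)
    (hf : ((s < lev ω w ∨ (s = lev ω w ∧ ix u < ix w)) ∧ ¬ Second g s (lev ω w)) ∨
     ((lev ω w < s ∨ (lev ω w = s ∧ ix w < ix u)) ∧
       (∀ v ∈ A, v ≠ w → s < lev ω v ∨ (s = lev ω v ∧ ix u < ix v)) ∧ Second g (lev ω w) s)) :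
    RelAt ix g c ω A w s := by
  refine ⟨hw, hc, ?_, ?_⟩
  · intro v hv hne
    rcases hf with ⟨h1, _⟩ | ⟨_, h2, _⟩
    · have := Calm_lev_of_klt (hw.2 v hv hne)
      omega
    · have := h2 v hv hne
      omega
  · rcases hf with ⟨h1, _⟩ | ⟨_, _, h3⟩
    · omega
    · exact h3.1.le

/-- `w` is the lowest vertex of every `A'` containing it which is high off `A` -/
theorem Calm_low_of_mem {ix : V → ℕ} {c : Bool} {ω : Cfg V n} {A A' : Finset V} {w : V} {t : ℕ}
    (hw : IsLow ix ω A w) (hwA : w ∈ A') (ht : lev ω w < t)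
    (hA' : ∀ v ∈ A' \ A, col ω v = c ∧ t ≤ lev ω v) : IsLow ix ω A' w := by
  refine ⟨hwA, fun v hv hne => ?_⟩
  by_cases hvA : v ∈ A
  · exact hw.2 v hvA hne
  · have := (hA' v (mem_sdiff.2 ⟨hv, hvA⟩)).2
    exact Or.inl (by omega)

/-- (3e) -/
theorem Calm_SS (EE : Finset (Finset V)) (ix : V → ℕ) (hix : Function.Injective ix) (h : ℕ)
    (h1 : 1 ≤ h) (c : Bool) (hne : ∀ A ∈ EE, A.Nonempty) (A : Finset V) (w : V) (s : ℕ)
    (ω : Cfg V n) (hrel : RelAt ix (4 * h) c ω A w s) :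
    NA EE c A ω (lev ω w + 4 * h) ≤ SS EE ix (4 * h) c s ω := by
  unfold NA SS
  apply Finset.card_le_card
  intro A' hA'
  rw [mem_filter] at hA' ⊢
  obtain ⟨hE, hA'⟩ := hA'
  refine ⟨hE, ?_⟩
  obtain ⟨hlow, hcol, hlev, hsg⟩ := hrel
  have hcol' : ∀ v ∈ A', col ω v = c := by
    intro v hv
    by_cases hvA : v ∈ A
    · exact hcol v hvA
    · exact (hA' v (mem_sdiff.2 ⟨hv, hvA⟩)).1
  by_cases hwA : w ∈ A'
  · refine ⟨w, Calm_low_of_mem hlow hwA (by omega) hA', hcol', ?_, hsg⟩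
    intro v hv hvw
    by_cases hvA : v ∈ A
    · exact hlev v hvA hvw
    · have := (hA' v (mem_sdiff.2 ⟨hv, hvA⟩)).2
      omega
  · have hall : ∀ v ∈ A', s ≤ lev ω v := by
      intro v hv
      by_cases hvA : v ∈ A
      · exact hlev v hvA (fun he => hwA (he ▸ hv))
      · have := (hA' v (mem_sdiff.2 ⟨hv, hvA⟩)).2
        omega
    obtain ⟨w', hw'⟩ := Calm_exists_low ix hix ω A' (hne A' hE)
    refine ⟨w', hw', hcol', fun v hv _ => hall v hv, ?_⟩
    have := hall w' hw'.1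
    omega

/-- counting: a set of levels below `s` avoiding `MM` lowers the exponent -/
theorem Calm_count (S : Finset ℕ) (s : ℕ) (D : Finset ℕ) (hD : ∀ j ∈ D, j < s ∧ j ∉ S) :
    Real.exp (((S.filter (fun j => j < s)).card : ℕ) : ℝ) ≤
      Real.exp (s : ℝ) * Real.exp (-((D.card : ℕ) : ℝ)) := by
  rw [← Real.exp_add]
  apply Real.exp_le_exp.2
  have h1 : (S.filter (fun j => j < s)).card + D.card ≤ s := by
    rw [← Finset.card_union_of_disjoint]
    · calc ((S.filter (fun j => j < s)) ∪ D).card ≤ (range s).card := by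
            apply Finset.card_le_card
            intro j hj
            rw [mem_union, mem_filter] at hj
            rw [mem_range]
            rcases hj with hj | hj
            · exact hj.2
            · exact (hD j hj).1
        _ = s := card_range s
    · rw [Finset.disjoint_left]
      intro j hj hjD
      exact (hD j hjD).2 (mem_filter.1 hj).1
  have h2 : (((S.filter (fun j => j < s)).card : ℕ) : ℝ) + (D.card : ℝ) ≤ (s : ℝ) := by
    exact_mod_cast h1
  linarith

/-- (3g) -/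
theorem Calm_after (EE : Finset (Finset V)) (ix : V → ℕ) (h M : ℕ)
    (c : Bool) (u : V) (A : Finset V) (w : V) (s : ℕ)
    (ω : Cfg V n) (hQ : QA EE c A w ω (lev ω w - 4 * h) = 0) :
    ∃ D : Finset ℕ, (∀ j ∈ D, j < s ∧ j ∉ MM EE ix (4 * h) M c u ω) ∧
      D.card = (s - lev ω w) / 2 := by
  refine ⟨(range ((s - lev ω w) / 2)).image (fun j => lev ω w + 1 + 2 * j), ?_, ?_⟩
  · intro s' hs'
    rw [mem_image] at hs'
    obtain ⟨j, hj, rfl⟩ := hs'
    rw [mem_range] at hj
    refine ⟨by omega, ?_⟩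
    intro hmem
    unfold MM at hmem
    rw [mem_filter] at hmem
    obtain ⟨_, A', hE, hcol, w', hlow, hf⟩ := hmem
    obtain ⟨_, _, hlev, hsg⟩ := Calm_rel_of_flip hcol hlow hf
    have hwA : w ∈ A' := by
      by_contra hwA
      unfold QA at hQ
      rw [Finset.card_eq_zero, Finset.filter_eq_empty_iff] at hQ
      apply hQ hE
      refine ⟨hwA, fun v hv => ⟨hcol v (mem_sdiff.1 hv).1, ?_⟩⟩
      by_cases hvw : v = w'
      · subst hvw
        omega
      · have := hlev v (mem_sdiff.1 hv).1 hvw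
        omega
    have hww : w = w' := by
      by_contra hne
      have := hlev w hwA hne
      omega
    subst hww
    rcases hf with ⟨h1, _⟩ | ⟨_, _, h3⟩
    · omega
    · have h4 := h3.2
      rw [Nat.even_iff] at h4
      omega
  · rw [Finset.card_image_of_injective, card_range]
    intro a b hab
    simp only at hab
    omega

/-- (3f) -/
theorem Calm_before (EE : Finset (Finset V)) (ix : V → ℕ) (h M : ℕ) (h1 : 1 ≤ h)
    (c : Bool) (u : V) (A : Finset V) (w : V) (s : ℕ)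
    (ω : Cfg V n) (hlow : IsLow ix ω A w) (hs : lev ω w ≤ s + h) (hσ : 2 * h ≤ lev ω w)
    (hQ : QA EE c A w ω (lev ω w - 4 * h) = 0)
    (hN : NA EE c A ω (lev ω w - 6 * h) = NA EE c A ω (lev ω w + 4 * h)) :
    ∃ D : Finset ℕ, (∀ j ∈ D, j < s ∧ j ∉ MM EE ix (4 * h) M c u ω) ∧
      h / 2 ≤ D.card := by
  refine ⟨(Ioc (h / 2) h).image (fun j => lev ω w - 2 * j), ?_, ?_⟩
  · intro s' hs'
    rw [mem_image] at hs'
    obtain ⟨j, hj, rfl⟩ := hs'
    rw [mem_Ioc] at hj
    refine ⟨by omega, ?_⟩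
    intro hmem
    unfold MM at hmem
    rw [mem_filter] at hmem
    obtain ⟨_, A', hE, hcol, w', hlow', hf⟩ := hmem
    obtain ⟨_, _, hlev, hsg⟩ := Calm_rel_of_flip hcol hlow' hf
    have hmem6 : ∀ v ∈ A' \ A, col ω v = c ∧ lev ω w - 6 * h ≤ lev ω v := by
      intro v hv
      refine ⟨hcol v (mem_sdiff.1 hv).1, ?_⟩
      by_cases hvw : v = w'
      · subst hvw
        omega
      · have := hlev v (mem_sdiff.1 hv).1 hvw
        omega
    have hsub : EE.filter (fun A' => ∀ v ∈ A' \ A, col ω v = c ∧ lev ω w + 4 * h ≤ lev ω v) ⊆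
        EE.filter (fun A' => ∀ v ∈ A' \ A, col ω v = c ∧ lev ω w - 6 * h ≤ lev ω v) := by
      intro B hB
      rw [mem_filter] at hB ⊢
      refine ⟨hB.1, fun v hv => ⟨(hB.2 v hv).1, ?_⟩⟩
      have := (hB.2 v hv).2
      omega
    unfold NA at hN
    have heq := Finset.eq_of_subset_of_card_le hsub hN.le
    have hA4 : A' ∈ EE.filter (fun A' => ∀ v ∈ A' \ A, col ω v = c ∧
        lev ω w + 4 * h ≤ lev ω v) := by
      rw [heq, mem_filter]
      exact ⟨hE, hmem6⟩
    have hA4' := (mem_filter.1 hA4).2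
    have hwA : w ∈ A' := by
      by_contra hwA
      unfold QA at hQ
      rw [Finset.card_eq_zero, Finset.filter_eq_empty_iff] at hQ
      apply hQ hE
      refine ⟨hwA, fun v hv => ⟨(hA4' v hv).1, ?_⟩⟩
      have := (hA4' v hv).2
      omega
    have hlow2 : IsLow ix ω A' w := Calm_low_of_mem hlow hwA (by omega) hA4'
    have hww : w = w' := Calm_low_unique hlow2 hlow'
    subst hww
    rcases hf with ⟨_, h2⟩ | ⟨h2, _, _⟩
    · apply h2
      refine ⟨by omega, ?_⟩
      rw [Nat.even_iff]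
      omega
    · omega
  · rw [Finset.card_image_of_injOn, Nat.card_Ioc]
    · omega
    · intro a ha b hb hab
      rw [mem_coe, mem_Ioc] at ha hb
      simp only at hab
      omega

theorem calm (EE : Finset (Finset V)) (ix : V → ℕ) (hix : Function.Injective ix) (h M : ℕ)
    (h1 : 1 ≤ h) (c : Bool) (u : V) (hu : ∀ A ∈ EE, u ∉ A) (hne : ∀ A ∈ EE, A.Nonempty)
    (A : Finset V) (hA : A ∈ EE) (w : V)
    (s : ℕ) (ω : Cfg V n) (hrel : RelAt ix (4 * h) c ω A w s) (hs : lev ω w ≤ s + h) :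
    Real.exp ((((MM EE ix (4 * h) M c u ω).filter (fun j => j < s)).card : ℕ) : ℝ) /
        (SS EE ix (4 * h) c s ω : ℝ) ≤
      Real.exp (s : ℝ) * GG h (NA EE c A ω) (QA EE c A w ω) (lev ω w) s := by
  have hSS := Calm_SS EE ix hix h h1 c hne A w s ω hrel
  have hN1 : 1 ≤ NA EE c A ω (lev ω w + 4 * h) := by
    unfold NA
    rw [Nat.one_le_iff_ne_zero, Finset.card_ne_zero]
    refine ⟨A, ?_⟩
    rw [mem_filter]
    refine ⟨hA, fun v hv => ?_⟩
    rw [sdiff_self] at hv
    exact absurd hv (notMem_empty v)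
  have hN1' : (1 : ℝ) ≤ (NA EE c A ω (lev ω w + 4 * h) : ℝ) := by exact_mod_cast hN1
  have hSS' : (NA EE c A ω (lev ω w + 4 * h) : ℝ) ≤ (SS EE ix (4 * h) c s ω : ℝ) := by
    exact_mod_cast hSS
  have hpos : (0 : ℝ) < (NA EE c A ω (lev ω w + 4 * h) : ℝ) := by linarith
  have hspos : (0 : ℝ) < (SS EE ix (4 * h) c s ω : ℝ) := by linarith
  have key : ∀ D : Finset ℕ, (∀ j ∈ D, j < s ∧ j ∉ MM EE ix (4 * h) M c u ω) →
      Real.exp ((((MM EE ix (4 * h) M c u ω).filter (fun j => j < s)).card : ℕ) : ℝ) /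
        (SS EE ix (4 * h) c s ω : ℝ) ≤
      Real.exp (s : ℝ) * (Real.exp (-((D.card : ℕ) : ℝ)) /
        (NA EE c A ω (lev ω w + 4 * h) : ℝ)) := by
    intro D hD
    have h2 := Calm_count (MM EE ix (4 * h) M c u ω) s D hD
    rw [← mul_div_assoc]
    exact div_le_div₀ (by positivity) h2 hpos hSS'
  have key1 : ∀ D : Finset ℕ, (∀ j ∈ D, j < s ∧ j ∉ MM EE ix (4 * h) M c u ω) →
      Real.exp ((((MM EE ix (4 * h) M c u ω).filter (fun j => j < s)).card : ℕ) : ℝ) /
        (SS EE ix (4 * h) c s ω : ℝ) ≤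
      Real.exp (s : ℝ) * Real.exp (-((D.card : ℕ) : ℝ)) := by
    intro D hD
    refine (key D hD).trans ?_
    apply mul_le_mul_of_nonneg_left _ (Real.exp_pos _).le
    exact div_le_self (Real.exp_pos _).le hN1'
  unfold GG
  split_ifs with hσ hQ hN
  · have h3 := key1 ∅ (fun j hj => absurd hj (notMem_empty j))
    simpa using h3
  · obtain ⟨D, hD, hcard⟩ := Calm_before EE ix h M h1 c u A w s ω hrel.1 hs
      (by omega) hQ hN
    refine (key1 D hD).trans ?_
    apply mul_le_mul_of_nonneg_left _ (Real.exp_pos _).le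
    apply Real.exp_le_exp.2
    have : ((h / 2 : ℕ) : ℝ) ≤ ((D.card : ℕ) : ℝ) := by exact_mod_cast hcard
    linarith
  · obtain ⟨D, hD, hcard⟩ := Calm_after EE ix h M c u A w s ω hQ
    have h3 := key D hD
    rw [hcard] at h3
    exact h3
  · have h3 := key ∅ (fun j hj => absurd hj (notMem_empty j))
    simpa using h3

end

end PropB2
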