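import Pool.Agent.H7.PB.Basic

/-!
# Property B, version 2 (parity rule): definitions

See /team-store/propB_h66.md.  Same random object as version 1 (`PropB.Cfg`): every vertex gets a
colour and a level in `Fin n`.  `ix : V → ℕ` is an injective numbering used to break ties.
A monochromatic edge with lowest vertex `w` and second lowest vertex `z` flips `z` if
`lev z - lev w` is even and `< g`, otherwise it flips `w`.
-/

namespace PropB2

noncomputable section

open Finset Classical PropB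

variable {V : Type*} [Fintype V] [DecidableEq V] {n : ℕ}

/-- strict order of the keys (level, index) -/
def klt (ix : V → ℕ) (ω : Cfg V n) (v w : V) : Prop :=
  lev ω v < lev ω w ∨ (lev ω v = lev ω w ∧ ix v < ix w)

/-- `w` is the vertex of `A` with the lowest key -/
def IsLow (ix : V → ℕ) (ω : Cfg V n) (A : Finset V) (w : V) : Prop :=
  w ∈ A ∧ ∀ v ∈ A, v ≠ w → klt ix ω w v

/-- the gap test of the parity rule, for levels `a ≤ b` of the two lowest vertices: the second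
lowest vertex is flipped -/
def Second (g a b : ℕ) : Prop := b < a + g ∧ Even (b - a)

/-- the vertex `v` is the one flipped by the edge `A` -/
def Flips (ix : V → ℕ) (g : ℕ) (ω : Cfg V n) (A : Finset V) (v : V) : Prop :=
  ∃ w z, IsLow ix ω A w ∧ IsLow ix ω (A.erase w) z ∧
    ((Second g (lev ω w) (lev ω z) ∧ v = z) ∨ (¬ Second g (lev ω w) (lev ω z) ∧ v = w))

/-- bad event at `B`: some vertex of `B` has colour `c`, and all of them have level `< M` and are
flipped by monochromatic edges meeting `B` in this vertex only -/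
def EvI (H : Finset (Finset V)) (ix : V → ℕ) (g M : ℕ) (c : Bool) (B : Finset V)
    (ω : Cfg V n) : Prop :=
  (∃ v ∈ B, col ω v = c) ∧ ∀ u ∈ B, col ω u = c → lev ω u < M ∧
    ∃ A ∈ H, A ∩ B = {u} ∧ (∀ v ∈ A, col ω v = c) ∧ Flips ix g ω A u

/-! ### one vertex `u`; the sets below have `u` removed -/

/-- `u`, put at level `s` (and colour `c`), is flipped by `A ∪ {u}`, `u ∉ A` -/
def FlipAt (ix : V → ℕ) (g : ℕ) (ω : Cfg V n) (A : Finset V) (u : V) (s : ℕ) : Prop :=
  ∃ w, IsLow ix ω A w ∧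
    (((s < lev ω w ∨ (s = lev ω w ∧ ix u < ix w)) ∧ ¬ Second g s (lev ω w)) ∨
     ((lev ω w < s ∨ (lev ω w = s ∧ ix w < ix u)) ∧
       (∀ v ∈ A, v ≠ w → s < lev ω v ∨ (s = lev ω v ∧ ix u < ix v)) ∧ Second g (lev ω w) s))

/-- the dangerous levels of `u` -/
def MM (EE : Finset (Finset V)) (ix : V → ℕ) (g M : ℕ) (c : Bool) (u : V) (ω : Cfg V n) :
    Finset ℕ :=
  (range M).filter (fun s => ∃ A ∈ EE, (∀ v ∈ A, col ω v = c) ∧ FlipAt ix g ω A u s)

/-- the edges meeting `B` exactly in `u`, with `u` removed -/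
def fam (H : Finset (Finset V)) (B : Finset V) (u : V) : Finset (Finset V) :=
  (H.filter (fun A => A ∩ B = {u})).image (fun A => A.erase u)

/-- `A` is relevant at level `s`, with lowest vertex `w` -/
def RelAt (ix : V → ℕ) (g : ℕ) (c : Bool) (ω : Cfg V n) (A : Finset V) (w : V) (s : ℕ) : Prop :=
  IsLow ix ω A w ∧ (∀ v ∈ A, col ω v = c) ∧ (∀ v ∈ A, v ≠ w → s ≤ lev ω v) ∧ s ≤ lev ω w + g

/-- number of relevant sets at level `s` -/
def SS (EE : Finset (Finset V)) (ix : V → ℕ) (g : ℕ) (c : Bool) (s : ℕ) (ω : Cfg V n) : ℕ :=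
  (EE.filter (fun A => ∃ w, RelAt ix g c ω A w s)).card

/-- number of members of `EE` which are alive at level `t` off `A` -/
def NA (EE : Finset (Finset V)) (c : Bool) (A : Finset V) (ω : Cfg V n) (t : ℕ) : ℕ :=
  (EE.filter (fun A' => ∀ v ∈ A' \ A, col ω v = c ∧ t ≤ lev ω v)).card

/-- number of members of `EE` not containing `w` which are alive at level `t` off `A` -/
def QA (EE : Finset (Finset V)) (c : Bool) (A : Finset V) (w : V) (ω : Cfg V n) (t : ℕ) : ℕ :=
  (EE.filter (fun A' => w ∉ A' ∧ ∀ v ∈ A' \ A, col ω v = c ∧ t ≤ lev ω v)).card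

/-- the bound for `e^{-def(s)} / S_s`; `σ` is the level of the lowest vertex of `A` -/
def GG (h : ℕ) (N Q : ℕ → ℕ) (σ s : ℕ) : ℝ :=
  if σ < 2 * h then 1
  else if Q (σ - 4 * h) = 0 then
    (if N (σ - 6 * h) = N (σ + 4 * h) then Real.exp (-((h / 2 : ℕ) : ℝ))
     else Real.exp (-(((s - σ) / 2 : ℕ) : ℝ)) / (N (σ + 4 * h) : ℝ))
  else 1 / (N (σ + 4 * h) : ℝ)

/-- the weighted sum of `GG` over `σ, s` -/
def TT (h M n : ℕ) (N Q : ℕ → ℕ) : ℝ :=
  ∑ s ∈ range M, ∑ σ ∈ range n,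
    (if s ≤ σ + 4 * h then
      Real.exp (-((σ - s : ℕ) : ℝ)) * (if σ ≤ s + h then GG h N Q σ s else 1) else 0)

/-- drop part -/
def DropS (h K : ℕ) (N : ℕ → ℕ) : ℝ :=
  ∑ σ ∈ range K, (if N (σ - 6 * h) = N (σ + 4 * h) then 0 else 1 / (N (σ + 4 * h) : ℝ))

/-- far part -/
def QS (h K : ℕ) (N Q : ℕ → ℕ) : ℝ :=
  ∑ σ ∈ range K, (if Q (σ - 4 * h) = 0 then 0 else 1 / (N (σ + 4 * h) : ℝ))

/-- the loss factor -/
def JJ (h M : ℕ) : ℝ :=
  (M : ℝ) * Real.exp (-(h : ℝ)) + 2 * h * (2 + 4 * h) +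
    ((M : ℝ) + h) * (2 + 4 * h) * Real.exp (-((h / 2 : ℕ) : ℝ)) +
    5 * (1 + 20 * h * (1 + Real.log ((M : ℝ) + h))) +
    (2 + 4 * h) * (20 * h + 6 + 4 * Real.log ((M : ℝ) + h))

end

end PropB2
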