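import Pool.Agent.H66.PB2.Defs

/-! The deterministic lemma, version 2 (parity rule). -/

namespace PropB2

noncomputable section

open Finset Classical PropB

variable {V : Type*} [Fintype V] [DecidableEq V] {n : ℕ}

omit [Fintype V] [DecidableEq V] in
private theorem det_low (ix : V → ℕ) (hix : Function.Injective ix) (ω : Cfg V n) (A : Finset V)
    (hA : A.Nonempty) : ∃ w, IsLow ix ω A w := by
  obtain ⟨w, hw, hmin⟩ := Finset.exists_min_image A
    (fun v => toLex (lev ω v, ix v)) hA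
  refine ⟨w, hw, fun v hv hne => ?_⟩
  have h1 := hmin v hv
  rw [Prod.Lex.toLex_le_toLex] at h1
  rcases h1 with h | ⟨h, h'⟩
  · exact Or.inl h
  · refine Or.inr ⟨h, lt_of_le_of_ne h' ?_⟩
    intro he
    exact hne (hix he).symm

omit [Fintype V] in
private theorem det_low_le {ix : V → ℕ} {ω : Cfg V n} {A : Finset V} {w : V}
    (h : IsLow ix ω A w) {v : V} (hv : v ∈ A) : lev ω w ≤ lev ω v := by
  by_cases hvw : v = w
  · rw [hvw]
  · rcases h.2 v hv hvw with h1 | h1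
    · exact h1.le
    · exact h1.1.le

theorem det_lemma (H : Finset (Finset V)) (ix : V → ℕ) (hix : Function.Injective ix) (T g : ℕ)
    (hH : ∀ A ∈ H, A.card = n) (hn : 2 ≤ n) (ω : Cfg V n) (h1 : ¬ E1 H T ω)
    (h2 : ¬ E2 H (T + g) ω) (h3 : ∀ c, ∀ B ∈ H, ¬ EvI H ix g (T + g) c B ω) :
    HasPropertyB H := by
  let F : V → Prop := fun v => ∃ A ∈ H, (∃ c, ∀ x ∈ A, col ω x = c) ∧ Flips ix g ω A v
  let χ : V → Bool := fun v => if F v then !(col ω v) else col ω v
  have hχF : ∀ v, F v → χ v = !(col ω v) := fun v hv => if_pos hv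
  have hχN : ∀ v, ¬ F v → χ v = col ω v := fun v hv => if_neg hv
  suffices hmain : ∀ B ∈ H, ∀ c : Bool, ∃ v ∈ B, χ v = c from
    ⟨χ, fun A hA => ⟨hmain A hA true, hmain A hA false⟩⟩
  intro B hB c
  by_contra hcon
  push Not at hcon
  -- vertices of `B` of old colour `c` are flipped
  have hY : ∀ u ∈ B, col ω u = c → F u := by
    intro u hu huc
    by_contra hno
    exact hcon u hu ((hχN u hno).trans huc)
  have hex : ∃ v ∈ B, col ω v = c := by
    by_contra hemp
    push Not at hemp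
    have hBc : ∀ v ∈ B, col ω v = !c := fun v hv => Bool.eq_not.mpr (hemp v hv)
    have hcB := hH B hB
    obtain ⟨w, hw⟩ := det_low ix hix ω B (by rw [← Finset.card_pos]; omega)
    obtain ⟨z, hz⟩ := det_low ix hix ω (B.erase w)
      (by rw [← Finset.card_pos, Finset.card_erase_of_mem hw.1]; omega)
    have hzB : z ∈ B := Finset.mem_of_mem_erase hz.1
    have hfl : ∃ x ∈ B, Flips ix g ω B x := by
      by_cases hs : Second g (lev ω w) (lev ω z)
      · exact ⟨z, hzB, w, z, hw, hz, Or.inl ⟨hs, rfl⟩⟩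
      · exact ⟨w, hw.1, w, z, hw, hz, Or.inr ⟨hs, rfl⟩⟩
    obtain ⟨x, hxB, hx⟩ := hfl
    have hFx : F x := ⟨B, hB, ⟨!c, hBc⟩, hx⟩
    refine hcon x hxB ?_
    rw [hχF x hFx, hBc x hxB, Bool.not_not]
  -- levels
  have hlev : ∀ u ∈ B, col ω u = c → lev ω u < T + g ∧
      ∃ A ∈ H, u ∈ A ∧ (∀ v ∈ A, col ω v = c) ∧ Flips ix g ω A u := by
    intro u hu huc
    obtain ⟨A, hA, ⟨c', hc'⟩, hfl⟩ := hY u hu huc
    have hfl' := hfl
    obtain ⟨w, z, hw, hz, hor⟩ := hfl'
    have hzA : z ∈ A := Finset.mem_of_mem_erase hz.1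
    have huA : u ∈ A := by
      rcases hor with ⟨_, h⟩ | ⟨_, h⟩
      · rw [h]; exact hzA
      · rw [h]; exact hw.1
    have hcc : c' = c := by rw [← hc' u huA, huc]
    subst hcc
    have hex2 : ∃ x ∈ A, lev ω x < T := by
      by_contra hno
      push Not at hno
      exact h1 ⟨c', A, hA, fun v hv => ⟨hc' v hv, hno v hv⟩⟩
    obtain ⟨x, hxA, hxT⟩ := hex2
    have hwT : lev ω w < T := lt_of_le_of_lt (det_low_le hw hxA) hxT
    refine ⟨?_, A, hA, huA, hc', hfl⟩
    rcases hor with ⟨hs, h⟩ | ⟨_, h⟩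
    · rw [h]
      have := hs.1
      omega
    · rw [h]
      omega
  refine h3 c B hB ⟨hex, fun u hu huc => ?_⟩
  obtain ⟨hul, A, hA, huA, hAc, hfl⟩ := hlev u hu huc
  refine ⟨hul, A, hA, ?_, hAc, hfl⟩
  have huAB : u ∈ A ∩ B := Finset.mem_inter.mpr ⟨huA, hu⟩
  have hcard : (A ∩ B).card ≤ 1 := by
    by_contra hcon2
    exact h2 ⟨c, A, hA, B, hB, by omega, hAc, fun v hv hvc => (hlev v hv hvc).1⟩
  exact Finset.eq_singleton_iff_unique_mem.mpr
    ⟨huAB, fun x hx => Finset.card_le_one.mp hcard x hx u huAB⟩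

end

end PropB2
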