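import Pool.Agent.H66.PB2.Defs

/-! Module Drift: one step of the harmonic potential (see /team-store/propB_h66.md, (4b)). -/

namespace PropB2

noncomputable section

open Finset Classical PropB

variable {V : Type*} [Fintype V] [DecidableEq V] {n : ℕ}

/-- alive at level `s` off `A` -/
def Drift_al (c : Bool) (A A' : Finset V) (s : ℕ) (ω : Cfg V n) : Prop :=
  ∀ v ∈ A' \ A, col ω v = c ∧ s ≤ lev ω v

/-- the good values -/
def Drift_P (n : ℕ) (c : Bool) (s : ℕ) : Finset (Bool × Fin n) :=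
  (univ : Finset (Bool × Fin n)).filter (fun x => x.1 = c ∧ s ≤ (x.2 : ℕ))

/-- replace the coordinates in `Z` by `(c, n-1)` -/
def Drift_rep (c : Bool) (Z : Finset V) (hn : 0 < n) (ω : Cfg V n) : Cfg V n :=
  fun v => if v ∈ Z then (c, ⟨n - 1, Nat.sub_lt hn one_pos⟩) else ω v

/-- the weight -/
def Drift_F (EE : Finset (Finset V)) (c : Bool) (A : Finset V) (t K : ℕ) (ω : Cfg V n) : ℝ :=
  if NA EE c A ω t < K then 1 / (NA EE c A ω t : ℝ) else 0

omit [Fintype V] [DecidableEq V] in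
theorem Drift_mem (c : Bool) (s : ℕ) (ω : Cfg V n) (v : V) :
    ω v ∈ Drift_P n c s ↔ col ω v = c ∧ s ≤ lev ω v := by
  unfold Drift_P col lev
  simp

theorem Drift_prod (c : Bool) (A A' : Finset V) (s : ℕ) (ω : Cfg V n) :
    (∏ v ∈ A' \ A, (if ω v ∈ Drift_P n c s then (1 : ℝ) else 0)) =
      if Drift_al c A A' s ω then 1 else 0 := by
  by_cases h : Drift_al c A A' s ω
  · rw [if_pos h]
    exact Finset.prod_eq_one (fun v hv => if_pos ((Drift_mem c s ω v).2 (h v hv)))
  · rw [if_neg h]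
    unfold Drift_al at h
    push Not at h
    obtain ⟨v, hv, hv2⟩ := h
    refine Finset.prod_eq_zero hv (if_neg (fun hmem => ?_))
    have := (Drift_mem c s ω v).1 hmem
    exact absurd this.2 (not_le.2 (hv2 this.1))

theorem Drift_NA_rep (EE : Finset (Finset V)) (c : Bool) (A A' : Finset V) (t : ℕ) (ht : t < n)
    (ω : Cfg V n) (h : Drift_al c A A' t ω) :
    NA EE c A (Drift_rep c (A' \ A) (lt_of_le_of_lt (Nat.zero_le t) ht) ω) t = NA EE c A ω t := by
  unfold NA
  congr 1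
  refine Finset.filter_congr (fun B _ => ?_)
  refine forall_congr' (fun v => forall_congr' (fun _ => ?_))
  unfold col lev
  by_cases hv : v ∈ A' \ A
  · have e : Drift_rep c (A' \ A) (lt_of_le_of_lt (Nat.zero_le t) ht) ω v =
        (c, ⟨n - 1, Nat.sub_lt (lt_of_le_of_lt (Nat.zero_le t) ht) one_pos⟩) := if_pos hv
    rw [e]
    have h2 := h v hv
    unfold col lev at h2
    constructor
    · intro _
      exact h2
    · intro _
      refine ⟨rfl, ?_⟩
      show t ≤ n - 1
      omega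
  · have e : Drift_rep c (A' \ A) (lt_of_le_of_lt (Nat.zero_le t) ht) ω v = ω v := if_neg hv
    rw [e]

theorem Drift_F_rep (EE : Finset (Finset V)) (c : Bool) (A A' : Finset V) (t K s : ℕ)
    (ht : t < n) (hs : t ≤ s) (ω : Cfg V n) :
    Drift_F EE c A t K ω * (∏ v ∈ A' \ A, (if ω v ∈ Drift_P n c s then (1 : ℝ) else 0)) =
      Drift_F EE c A t K (Drift_rep c (A' \ A) (lt_of_le_of_lt (Nat.zero_le t) ht) ω) *
        (∏ v ∈ A' \ A, (if ω v ∈ Drift_P n c s then (1 : ℝ) else 0)) := by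
  rw [Drift_prod]
  by_cases h : Drift_al c A A' s ω
  · have h2 : Drift_al c A A' t ω := fun v hv => ⟨(h v hv).1, hs.trans (h v hv).2⟩
    unfold Drift_F
    rw [Drift_NA_rep EE c A A' t ht ω h2]
  · rw [if_neg h, mul_zero, mul_zero]

theorem Drift_Ex (EE : Finset (Finset V)) (c : Bool) (A A' : Finset V) (t K s : ℕ)
    (ht : t < n) (hs : t ≤ s) :
    Ex (fun ω : Cfg V n => Drift_F EE c A t K ω *
        (if Drift_al c A A' s ω then (1 : ℝ) else 0)) =
      Ex (fun ω : Cfg V n =>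
        Drift_F EE c A t K (Drift_rep c (A' \ A) (lt_of_le_of_lt (Nat.zero_le t) ht) ω)) *
        (((n - s : ℕ) : ℝ) / (2 * n)) ^ (A' \ A).card := by
  have h1 : (fun ω : Cfg V n => Drift_F EE c A t K ω *
        (if Drift_al c A A' s ω then (1 : ℝ) else 0)) =
      (fun ω : Cfg V n =>
        Drift_F EE c A t K (Drift_rep c (A' \ A) (lt_of_le_of_lt (Nat.zero_le t) ht) ω) *
        (∏ v ∈ A' \ A, (if ω v ∈ (fun (_ : V) (_ : Cfg V n) => Drift_P n c s) v ω
          then (1 : ℝ) else 0))) := by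
    funext ω
    rw [← Drift_prod, Drift_F_rep EE c A A' t K s ht hs ω]
  have hF : IndepOf (A' \ A) (fun ω : Cfg V n =>
        Drift_F EE c A t K (Drift_rep c (A' \ A) (lt_of_le_of_lt (Nat.zero_le t) ht) ω)) := by
    intro ω ω' h
    have : Drift_rep c (A' \ A) (lt_of_le_of_lt (Nat.zero_le t) ht) ω =
        Drift_rep c (A' \ A) (lt_of_le_of_lt (Nat.zero_le t) ht) ω' := by
      funext v
      unfold Drift_rep
      by_cases hv : v ∈ A' \ A
      · rw [if_pos hv, if_pos hv]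
      · rw [if_neg hv, if_neg hv, h v hv]
    simp only [this]
  rw [h1, Ex_prod (A' \ A) _ hF (fun (_ : V) (_ : Cfg V n) => Drift_P n c s)
    (fun _ _ => fun _ _ _ => rfl)]
  have h2 : (Drift_P n c s).card = n - s := card_ge c s
  simp only [h2, Finset.prod_const]
  unfold Ex
  rw [← Finset.sum_mul]
  ring

theorem Drift_Ex_sub (f g : Cfg V n → ℝ) : Ex (fun ω => f ω - g ω) = Ex f - Ex g := by
  unfold Ex
  rw [Finset.sum_sub_distrib, sub_div]

/-- the numerical inequality -/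
theorem Drift_num (n t m : ℕ) (ht : t < n) (hm : m ≤ n) :
    (m : ℝ) * (((n - t : ℕ) : ℝ) / (2 * n)) ^ m ≤
      2 * n * ((((n - t : ℕ) : ℝ) / (2 * n)) ^ m -
        (((n - (t + 1) : ℕ) : ℝ) / (2 * n)) ^ m) := by
  have hn : (0 : ℝ) < n := by exact_mod_cast (lt_of_le_of_lt (Nat.zero_le t) ht)
  have ha : (1 : ℝ) ≤ ((n - t : ℕ) : ℝ) := by
    have : 1 ≤ n - t := by omega
    exact_mod_cast this
  have hb : ((n - (t + 1) : ℕ) : ℝ) = ((n - t : ℕ) : ℝ) - 1 := by
    have : n - (t + 1) + 1 = n - t := by omega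
    have h2 : ((n - (t + 1) + 1 : ℕ) : ℝ) = ((n - t : ℕ) : ℝ) := by rw [this]
    push_cast at h2 ⊢
    linarith
  have han : ((n - t : ℕ) : ℝ) ≤ n := by
    have : n - t ≤ n := Nat.sub_le _ _
    exact_mod_cast this
  set a : ℝ := ((n - t : ℕ) : ℝ) with hadef
  rw [hb]
  have hapos : 0 < a := by linarith
  -- (a-1)/(2n) = a/(2n) * (1 - 1/a)
  have e1 : (a - 1) / (2 * n) = (a / (2 * n)) * (1 - 1 / a) := by
    field_simp
  rw [e1, mul_pow]
  have hpow : 0 ≤ (a / (2 * n)) ^ m := by positivity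
  have key : (m : ℝ) ≤ 2 * n * (1 - (1 - 1 / a) ^ m) := by
    have h0 : 0 ≤ 1 - 1 / a := by
      rw [sub_nonneg, div_le_one hapos]; exact ha
    have h1 : 1 - 1 / a ≤ Real.exp (-(1 / (n : ℝ))) := by
      have h3 : 1 / (n : ℝ) ≤ 1 / a := one_div_le_one_div_of_le hapos han
      have h4 := Real.add_one_le_exp (-(1 / (n : ℝ)))
      linarith
    have h2 : (1 - 1 / a) ^ m ≤ Real.exp (-((m : ℝ) / n)) := by
      calc (1 - 1 / a) ^ m ≤ (Real.exp (-(1 / (n : ℝ)))) ^ m := pow_le_pow_left₀ h0 h1 m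
        _ = Real.exp (-((m : ℝ) / n)) := by
          rw [← Real.exp_nat_mul]
          congr 1
          ring
    set x : ℝ := (m : ℝ) / n with hx
    have hx0 : 0 ≤ x := by positivity
    have hx1 : x ≤ 1 := by
      rw [hx, div_le_one hn]
      exact_mod_cast hm
    have h5 : Real.exp (-x) ≤ 1 - x / 2 := by
      -- exp(-x) ≤ 1/(1+x) ≤ 1 - x/2
      have h6 : Real.exp (-x) ≤ 1 / (1 + x) := by
        rw [Real.exp_neg, ← one_div]
        exact one_div_le_one_div_of_le (by linarith) (by linarith [Real.add_one_le_exp x])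
      have h7 : 1 / (1 + x) ≤ 1 - x / 2 := by
        rw [div_le_iff₀ (by linarith)]
        nlinarith
      linarith
    have h8 : (m : ℝ) = n * x := by
      rw [hx]; field_simp
    rw [h8]
    nlinarith [h2, h5, hn]
  calc (m : ℝ) * (a / (2 * n)) ^ m ≤ (2 * n * (1 - (1 - 1 / a) ^ m)) * (a / (2 * n)) ^ m :=
        mul_le_mul_of_nonneg_right key hpow
    _ = 2 * n * ((a / (2 * n)) ^ m - (a / (2 * n)) ^ m * (1 - 1 / a) ^ m) := by ring

theorem drift (EE : Finset (Finset V)) (hEE : ∀ A' ∈ EE, A'.card + 1 = n) (c : Bool)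
    (A : Finset V) (t K : ℕ) (ht : t < n) :
    Ex (fun ω : Cfg V n => if NA EE c A ω t < K then
        (∑ A' ∈ EE.filter (fun A' => ∀ v ∈ A' \ A, col ω v = c ∧ t ≤ lev ω v),
          ((A' \ A).card : ℝ)) / (NA EE c A ω t : ℝ) else 0) ≤
      2 * n * Ex (fun ω : Cfg V n => if NA EE c A ω t < K then
        ((NA EE c A ω t : ℝ) - (NA EE c A ω (t + 1) : ℝ)) / (NA EE c A ω t : ℝ) else 0) := by
  have hNA : ∀ (s : ℕ) (ω : Cfg V n), (NA EE c A ω s : ℝ) =
      ∑ A' ∈ EE, (if Drift_al c A A' s ω then (1 : ℝ) else 0) := by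
    intro s ω
    rw [Finset.sum_boole]
    unfold NA
    have e : (EE.filter (fun A' => ∀ v ∈ A' \ A, col ω v = c ∧ s ≤ lev ω v)) =
        (EE.filter (fun A' => Drift_al c A A' s ω)) :=
      Finset.filter_congr (fun _ _ => Iff.rfl)
    rw [e]
  have hL : (fun ω : Cfg V n => if NA EE c A ω t < K then
        (∑ A' ∈ EE.filter (fun A' => ∀ v ∈ A' \ A, col ω v = c ∧ t ≤ lev ω v),
          ((A' \ A).card : ℝ)) / (NA EE c A ω t : ℝ) else 0) =
      (fun ω : Cfg V n => ∑ A' ∈ EE, ((A' \ A).card : ℝ) * (Drift_F EE c A t K ω *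
        (if Drift_al c A A' t ω then (1 : ℝ) else 0))) := by
    funext ω
    by_cases hK : NA EE c A ω t < K
    · rw [if_pos hK, Finset.sum_filter, Finset.sum_div]
      refine Finset.sum_congr rfl (fun A' _ => ?_)
      unfold Drift_F
      rw [if_pos hK]
      by_cases hal : Drift_al c A A' t ω
      · have hal' : ∀ v ∈ A' \ A, col ω v = c ∧ t ≤ lev ω v := hal
        rw [if_pos hal, if_pos hal']
        ring
      · have hal' : ¬ ∀ v ∈ A' \ A, col ω v = c ∧ t ≤ lev ω v := hal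
        rw [if_neg hal, if_neg hal']
        ring
    · rw [if_neg hK]
      unfold Drift_F
      simp [if_neg hK]
  have hR : (fun ω : Cfg V n => if NA EE c A ω t < K then
        ((NA EE c A ω t : ℝ) - (NA EE c A ω (t + 1) : ℝ)) / (NA EE c A ω t : ℝ) else 0) =
      (fun ω : Cfg V n => ∑ A' ∈ EE, (Drift_F EE c A t K ω *
        (if Drift_al c A A' t ω then (1 : ℝ) else 0) - Drift_F EE c A t K ω *
        (if Drift_al c A A' (t + 1) ω then (1 : ℝ) else 0))) := by
    funext ω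
    rw [Finset.sum_sub_distrib, ← Finset.mul_sum, ← Finset.mul_sum, ← hNA, ← hNA]
    unfold Drift_F
    by_cases hK : NA EE c A ω t < K
    · rw [if_pos hK, if_pos hK]
      ring
    · rw [if_neg hK, if_neg hK]
      ring
  rw [hL, hR, Ex_sum, Ex_sum, Finset.mul_sum]
  refine Finset.sum_le_sum (fun A' hA' => ?_)
  rw [Ex_const_mul, Drift_Ex_sub, Drift_Ex EE c A A' t K t ht le_rfl,
    Drift_Ex EE c A A' t K (t + 1) ht (Nat.le_succ t)]
  have hm : (A' \ A).card ≤ n := by
    have h1 := hEE A' hA'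
    have h2 := Finset.card_le_card (Finset.sdiff_subset : A' \ A ⊆ A')
    omega
  have h3 := Drift_num n t (A' \ A).card ht hm
  have h4 : 0 ≤ Ex (fun ω : Cfg V n =>
        Drift_F EE c A t K (Drift_rep c (A' \ A) (lt_of_le_of_lt (Nat.zero_le t) ht) ω)) := by
    refine Ex_nonneg (fun ω => ?_)
    unfold Drift_F
    split_ifs
    · positivity
    · exact le_rfl
  have h5 := mul_le_mul_of_nonneg_left h3 h4
  linarith [h5]

end

end PropB2
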