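import Pool.Agent.H66.PB2.Defs

/-! Module Drop: the drop part, pathwise. -/

namespace PropB2

noncomputable section

open Finset Classical PropB

variable {V : Type*} [Fintype V] [DecidableEq V] {n : ℕ}

/-- truncated harmonic number -/
def Drop_f (K a : ℕ) : ℝ := ((harmonic (min a K) : ℚ) : ℝ)

theorem Drop_step (m : ℕ) : ((harmonic (m + 1) : ℚ) : ℝ) =
    ((harmonic m : ℚ) : ℝ) + 1 / ((m : ℝ) + 1) := by
  rw [harmonic_succ]
  push_cast
  rw [one_div]

theorem Drop_mono : Monotone (fun m : ℕ => ((harmonic m : ℚ) : ℝ)) := by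
  apply monotone_nat_of_le_succ
  intro m
  have h := Drop_step m
  have hp : (0 : ℝ) ≤ 1 / ((m : ℝ) + 1) := by positivity
  linarith

theorem Drop_f_mono (K : ℕ) : Monotone (Drop_f K) := by
  intro a b hab
  unfold Drop_f
  exact Drop_mono (min_le_min_right K hab)

theorem Drop_f_nonneg (K a : ℕ) : 0 ≤ Drop_f K a := by
  unfold Drop_f
  have h := Drop_mono (Nat.zero_le (min a K))
  simpa using h

theorem Drop_f_le (K a : ℕ) (hK : 1 ≤ K) : Drop_f K a ≤ 1 + Real.log (K : ℝ) := by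
  unfold Drop_f
  have h1 := Drop_mono (min_le_right a K)
  have h2 := harmonic_le_one_add_log K
  exact le_trans h1 h2

theorem Drop_one (K a a' : ℕ) (hK : 1 ≤ K) (ha' : 1 ≤ a') (h : a' < a) :
    1 / (a' : ℝ) ≤ 1 / (K : ℝ) + 2 * (Drop_f K a - Drop_f K a') := by
  have hKr : (1 : ℝ) ≤ K := by exact_mod_cast hK
  have har : (1 : ℝ) ≤ a' := by exact_mod_cast ha'
  rcases Nat.lt_or_ge a' K with hlt | hge
  · have h1 : Drop_f K a' = ((harmonic a' : ℚ) : ℝ) := by
      unfold Drop_f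
      rw [min_eq_left hlt.le]
    have h2 : ((harmonic (a' + 1) : ℚ) : ℝ) ≤ Drop_f K a := by
      unfold Drop_f
      apply Drop_mono
      exact le_min (by omega) (by omega)
    have h3 := Drop_step a'
    have h4 : 1 / (a' : ℝ) ≤ 2 * (1 / ((a' : ℝ) + 1)) := by
      rw [mul_one_div, div_le_div_iff₀ (by linarith) (by linarith)]
      linarith
    have h5 : (0 : ℝ) ≤ 1 / (K : ℝ) := by positivity
    rw [h1]
    linarith
  · have h1 : 1 / (a' : ℝ) ≤ 1 / (K : ℝ) := by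
      apply one_div_le_one_div_of_le (by linarith)
      exact_mod_cast hge
    have h2 := Drop_f_mono K h.le
    linarith

theorem Drop_shift (M D : ℕ) (g : ℕ → ℝ) (h0 : ∀ s, 0 ≤ g s) (ha : Antitone g) :
    ∑ T ∈ range M, g (T - D) ≤ (D : ℝ) * g 0 + ∑ s ∈ range M, g s := by
  rcases Nat.le_total M D with hMD | hMD
  · have e1 : ∑ T ∈ range M, g (T - D) ≤ ∑ T ∈ range M, g 0 :=
      Finset.sum_le_sum (fun T _ => ha (Nat.zero_le _))
    have e2 : ∑ T ∈ range M, g 0 = (M : ℝ) * g 0 := by simp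
    have e3 : (M : ℝ) ≤ (D : ℝ) := by exact_mod_cast hMD
    have e4 : (M : ℝ) * g 0 ≤ (D : ℝ) * g 0 := mul_le_mul_of_nonneg_right e3 (h0 0)
    have e5 : 0 ≤ ∑ s ∈ range M, g s := Finset.sum_nonneg (fun s _ => h0 s)
    linarith
  · obtain ⟨m, rfl⟩ := Nat.exists_eq_add_of_le hMD
    rw [Finset.sum_range_add]
    have e1 : ∑ T ∈ range D, g (T - D) ≤ ∑ T ∈ range D, g 0 :=
      Finset.sum_le_sum (fun T _ => ha (Nat.zero_le _))
    have e2 : ∑ T ∈ range D, g 0 = (D : ℝ) * g 0 := by simp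
    have e3 : ∑ i ∈ range m, g (D + i - D) = ∑ i ∈ range m, g i := by
      apply Finset.sum_congr rfl
      intro i _
      congr 1
      omega
    have e4 : ∑ i ∈ range m, g i ≤ ∑ i ∈ range (D + m), g i := by
      apply Finset.sum_le_sum_of_subset_of_nonneg
      · intro i hi
        have := Finset.mem_range.mp hi
        exact Finset.mem_range.mpr (by omega)
      · intro i _ _
        exact h0 i
    linarith

theorem Drop_shift2 (M b : ℕ) (g : ℕ → ℝ) (h0 : ∀ s, 0 ≤ g s) (ha : Antitone g) :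
    ∑ s ∈ range M, g s ≤ (b : ℝ) * g 0 + ∑ s ∈ range M, g (s + b) := by
  have e1 : ∑ s ∈ range M, g s ≤ ∑ s ∈ range (b + M), g s := by
    apply Finset.sum_le_sum_of_subset_of_nonneg
    · intro i hi
      have := Finset.mem_range.mp hi
      exact Finset.mem_range.mpr (by omega)
    · intro i _ _
      exact h0 i
  rw [Finset.sum_range_add] at e1
  have e2 : ∑ T ∈ range b, g T ≤ ∑ T ∈ range b, g 0 :=
    Finset.sum_le_sum (fun T _ => ha (Nat.zero_le _))
  have e3 : ∑ T ∈ range b, g 0 = (b : ℝ) * g 0 := by simp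
  have e4 : ∑ i ∈ range M, g (b + i) = ∑ i ∈ range M, g (i + b) := by
    apply Finset.sum_congr rfl
    intro i _
    rw [add_comm]
  linarith

/-! ## Module Drop -/

theorem DropS_le (h K : ℕ) (hK : 1 ≤ K) (N : ℕ → ℕ) (hN : Antitone N) (hN1 : ∀ t, 1 ≤ N t) :
    DropS h K N ≤ 1 + 20 * h * (1 + Real.log (K : ℝ)) := by
  set g : ℕ → ℝ := fun σ => Drop_f K (N σ) with hg
  have hga : Antitone g := fun a b hab => Drop_f_mono K (hN hab)
  have hg0 : ∀ s, 0 ≤ g s := fun s => Drop_f_nonneg K (N s)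
  have hKr : (1 : ℝ) ≤ K := by exact_mod_cast hK
  have hterm : ∀ σ : ℕ, (if N (σ - 6 * h) = N (σ + 4 * h) then (0 : ℝ)
      else 1 / (N (σ + 4 * h) : ℝ)) ≤
      1 / (K : ℝ) + 2 * (g (σ - 6 * h) - g (σ + 4 * h)) := by
    intro σ
    have hle : N (σ + 4 * h) ≤ N (σ - 6 * h) := hN (by omega)
    split_ifs with heq
    · have h1 : g (σ + 4 * h) ≤ g (σ - 6 * h) := hga (by omega)
      have h2 : (0 : ℝ) ≤ 1 / (K : ℝ) := by positivity
      linarith
    · have hlt : N (σ + 4 * h) < N (σ - 6 * h) := lt_of_le_of_ne hle (fun e => heq e.symm)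
      exact Drop_one K (N (σ - 6 * h)) (N (σ + 4 * h)) hK (hN1 _) hlt
  have hsum : DropS h K N ≤
      ∑ σ ∈ range K, (1 / (K : ℝ) + 2 * (g (σ - 6 * h) - g (σ + 4 * h))) := by
    unfold DropS
    exact Finset.sum_le_sum (fun σ _ => hterm σ)
  have hsplit : ∑ σ ∈ range K, (1 / (K : ℝ) + 2 * (g (σ - 6 * h) - g (σ + 4 * h))) =
      1 + 2 * (∑ σ ∈ range K, g (σ - 6 * h) - ∑ σ ∈ range K, g (σ + 4 * h)) := by
    rw [Finset.sum_add_distrib, ← Finset.mul_sum, Finset.sum_sub_distrib, Finset.sum_const,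
      Finset.card_range, nsmul_eq_mul]
    have hK0 : (K : ℝ) ≠ 0 := by linarith
    field_simp
  have h1 := Drop_shift K (6 * h) g hg0 hga
  have h2 := Drop_shift2 K (4 * h) g hg0 hga
  have h3 : g 0 ≤ 1 + Real.log (K : ℝ) := Drop_f_le K (N 0) hK
  have h4 : 2 * (∑ σ ∈ range K, g (σ - 6 * h) - ∑ σ ∈ range K, g (σ + 4 * h)) ≤
      20 * (h : ℝ) * g 0 := by
    push_cast at h1 h2
    nlinarith
  have h5 : 20 * (h : ℝ) * g 0 ≤ 20 * h * (1 + Real.log (K : ℝ)) :=
    mul_le_mul_of_nonneg_left h3 (by positivity)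
  rw [hsplit] at hsum
  linarith

end

end PropB2
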