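import Pool.Agent.H66.PB2.Defs

/-! Module PI: product lemma and Jensen. -/

namespace PropB2

noncomputable section

open Finset Classical PropB

variable {V : Type*} [Fintype V] [DecidableEq V] {n : ℕ}

theorem PI_flipAt (ix : V → ℕ) (g : ℕ) (ω : Cfg V n) (A : Finset V) (u : V)
    (h : Flips ix g ω A u) : FlipAt ix g ω (A.erase u) u (lev ω u) := by
  obtain ⟨w, z, hw, hz, h1 | h1⟩ := h
  · obtain ⟨hs, rfl⟩ := h1
    have hwu : w ≠ u := by
      rintro rfl
      exact (Finset.notMem_erase w A) hz.1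
    refine ⟨w, ⟨Finset.mem_erase.2 ⟨hwu, hw.1⟩, fun v hv hvw => hw.2 v (Finset.mem_erase.1 hv).2 hvw⟩,
      Or.inr ⟨?_, ?_, hs⟩⟩
    · exact hw.2 u (Finset.mem_erase.1 hz.1).2 (Ne.symm hwu)
    · intro v hv hvw
      exact hz.2 v (Finset.mem_erase.2 ⟨hvw, (Finset.mem_erase.1 hv).2⟩) (Finset.mem_erase.1 hv).1
  · obtain ⟨hs, rfl⟩ := h1
    refine ⟨z, hz, Or.inl ⟨?_, hs⟩⟩
    exact hw.2 z (Finset.mem_erase.1 hz.1).2 (Finset.mem_erase.1 hz.1).1

theorem PI_mem (H : Finset (Finset V)) (ix : V → ℕ) (g M : ℕ) (c : Bool) (B : Finset V)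
    (ω : Cfg V n) (h : EvI H ix g M c B ω) (u : V) (hu : u ∈ B) (hc : col ω u = c) :
    lev ω u ∈ MM (fam H B u) ix g M c u ω := by
  obtain ⟨h1, A, hA, hAB, hmono, hfl⟩ := h.2 u hu hc
  unfold MM
  rw [Finset.mem_filter]
  refine ⟨Finset.mem_range.2 h1, A.erase u, ?_, ?_, PI_flipAt ix g ω A u hfl⟩
  · unfold fam
    rw [Finset.mem_image]
    exact ⟨A, Finset.mem_filter.2 ⟨hA, hAB⟩, rfl⟩
  · intro v hv
    exact hmono v (Finset.mem_erase.1 hv).2

theorem PI_fam_disj (H : Finset (Finset V)) (B : Finset V) (u : V) (A' : Finset V)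
    (hA' : A' ∈ fam H B u) (v : V) (hv : v ∈ A') : v ∉ B := by
  unfold fam at hA'
  rw [Finset.mem_image] at hA'
  obtain ⟨A, hA, rfl⟩ := hA'
  rw [Finset.mem_filter] at hA
  intro hvB
  have h1 : v ∈ A ∩ B := Finset.mem_inter.2 ⟨(Finset.mem_erase.1 hv).2, hvB⟩
  rw [hA.2, Finset.mem_singleton] at h1
  exact (Finset.mem_erase.1 hv).1 h1

theorem PI_low_congr (ix : V → ℕ) (ω ω' : Cfg V n) (A : Finset V)
    (h : ∀ v ∈ A, ω v = ω' v) (w : V) (hw : IsLow ix ω A w) : IsLow ix ω' A w := by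
  refine ⟨hw.1, fun v hv hvw => ?_⟩
  have h1 := hw.2 v hv hvw
  unfold klt lev at h1 ⊢
  rw [← h v hv, ← h w hw.1]
  exact h1

theorem PI_flip_congr (ix : V → ℕ) (g : ℕ) (ω ω' : Cfg V n) (A : Finset V)
    (h : ∀ v ∈ A, ω v = ω' v) (u : V) (s : ℕ) (hf : FlipAt ix g ω A u s) :
    FlipAt ix g ω' A u s := by
  obtain ⟨w, hw, h1⟩ := hf
  refine ⟨w, PI_low_congr ix ω ω' A h w hw, ?_⟩
  have hlev : ∀ v ∈ A, lev ω' v = lev ω v := fun v hv => by unfold lev; rw [h v hv]
  rw [hlev w hw.1]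
  rcases h1 with h1 | ⟨h1, h2, h3⟩
  · exact Or.inl h1
  · refine Or.inr ⟨h1, fun v hv hvw => ?_, h3⟩
    rw [hlev v hv]
    exact h2 v hv hvw

theorem PI_MM_sub (EE : Finset (Finset V)) (ix : V → ℕ) (g M : ℕ) (c : Bool) (u : V)
    (ω ω' : Cfg V n) (h : ∀ A ∈ EE, ∀ v ∈ A, ω v = ω' v) :
    MM EE ix g M c u ω ⊆ MM EE ix g M c u ω' := by
  intro s hs
  unfold MM at hs ⊢
  rw [Finset.mem_filter] at hs ⊢
  obtain ⟨h1, A, hA, hcol, hf⟩ := hs
  refine ⟨h1, A, hA, fun v hv => ?_, PI_flip_congr ix g ω ω' A (h A hA) u s hf⟩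
  have := hcol v hv
  unfold col at this ⊢
  rw [← h A hA v hv]
  exact this

theorem PI_MM_indep (H : Finset (Finset V)) (ix : V → ℕ) (g M : ℕ) (c : Bool) (B : Finset V)
    (u : V) : IndepOf B (fun ω : Cfg V n => MM (fam H B u) ix g M c u ω) := by
  intro ω ω' h
  apply Finset.Subset.antisymm
  · exact PI_MM_sub _ ix g M c u ω ω' (fun A hA v hv => h v (PI_fam_disj H B u A hA v hv))
  · exact PI_MM_sub _ ix g M c u ω' ω
      (fun A hA v hv => (h v (PI_fam_disj H B u A hA v hv)).symm)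

theorem PI_card (c : Bool) (S : Finset ℕ) (M : ℕ) (hS : ∀ j ∈ S, j < M) :
    ((univ : Finset (Bool × Fin n)).filter (fun x => x.1 = c → (x.2 : ℕ) ∈ S)).card
      ≤ n + S.card := by
  have h1 := card_other_or_le (n := n) c (fun j => j ∈ S) M hS
  have h2 : ((range M).filter (fun j => j ∈ S)).card ≤ S.card := by
    apply Finset.card_le_card
    intro j hj
    exact (Finset.mem_filter.1 hj).2
  refine le_trans (le_trans (le_of_eq ?_) h1) (Nat.add_le_add_left (le_trans (le_of_eq ?_) h2) n)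
  · congr
  · congr

theorem PI_num (hn : 2 ≤ n) (B : Finset V) (hB : B.card = n) (m : V → ℕ) :
    ∏ u ∈ B, (((n : ℝ) + (m u : ℝ)) / (2 * n)) ≤
      (1 / 2 ^ n) * ((1 / (n : ℝ)) * ∑ u ∈ B, Real.exp (m u : ℝ)) := by
  have hn' : (0 : ℝ) < n := by
    have : 0 < n := by omega
    exact_mod_cast this
  have h1 : ∀ u ∈ B, ((n : ℝ) + (m u : ℝ)) / (2 * n) ≤ (1 / 2) * Real.exp ((m u : ℝ) / n) := by
    intro u _
    have e : ((n : ℝ) + (m u : ℝ)) / (2 * n) = (1 / 2) * ((m u : ℝ) / n + 1) := by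
      field_simp
      ring
    rw [e]
    have := Real.add_one_le_exp ((m u : ℝ) / n)
    linarith
  have h2 : ∏ u ∈ B, (((n : ℝ) + (m u : ℝ)) / (2 * n)) ≤
      ∏ u ∈ B, ((1 / 2) * Real.exp ((m u : ℝ) / n)) :=
    Finset.prod_le_prod (fun u _ => by positivity) h1
  refine h2.trans ?_
  rw [Finset.prod_mul_distrib, Finset.prod_const, hB, ← Real.exp_sum, one_div_pow]
  refine mul_le_mul_of_nonneg_left ?_ (by positivity)
  have h3 := convexOn_exp.map_sum_le (t := B) (w := fun _ => 1 / (n : ℝ))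
    (p := fun u => (m u : ℝ)) (fun _ _ => by positivity)
    (by rw [Finset.sum_const, hB, nsmul_eq_mul]; field_simp) (fun _ _ => Set.mem_univ _)
  simp only [smul_eq_mul] at h3
  have h4 : ∑ u ∈ B, (m u : ℝ) / n = ∑ u ∈ B, 1 / (n : ℝ) * (m u : ℝ) := by
    apply Finset.sum_congr rfl
    intro u _
    ring
  rw [h4, Finset.mul_sum]
  exact h3

theorem Pr_EvI (hn : 2 ≤ n) (H : Finset (Finset V)) (hH : ∀ A ∈ H, A.card = n) (ix : V → ℕ)
    (hix : Function.Injective ix) (g M : ℕ) (c : Bool) (B : Finset V) (hB : B.card = n) :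
    Pr (fun ω : Cfg V n => EvI H ix g M c B ω) ≤
      (1 / 2 ^ n) * ((1 / (n : ℝ)) * ∑ u ∈ B,
        (Ex (fun ω : Cfg V n => Real.exp ((MM (fam H B u) ix g M c u ω).card : ℝ)) - 1)) := by
  have hn0 : 0 < n := by omega
  have hn' : (0 : ℝ) < n := by exact_mod_cast hn0
  let P : V → Cfg V n → Finset (Bool × Fin n) := fun u ω =>
    (univ : Finset (Bool × Fin n)).filter
      (fun x => x.1 = c → (x.2 : ℕ) ∈ MM (fam H B u) ix g M c u ω)
  let Q : V → Cfg V n → Finset (Bool × Fin n) := fun _ _ =>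
    (univ : Finset (Bool × Fin n)).filter (fun x => x.1 = (!c) ∧ 0 ≤ (x.2 : ℕ))
  have hPi : ∀ w ∈ B, IndepOf B (P w) := by
    intro w _ ω ω' h
    have e := PI_MM_indep (n := n) H ix g M c B w ω ω' h
    simp only at e
    simp only [P, e]
  have hQi : ∀ w ∈ B, IndepOf B (Q w) := fun w _ ω ω' _ => rfl
  -- first product
  have hA : Ex (fun ω : Cfg V n => ∏ w ∈ B, (if ω w ∈ P w ω then (1 : ℝ) else 0)) =
      Ex (fun ω => ∏ w ∈ B, (((P w ω).card : ℝ) / (2 * n))) := by
    have := Ex_prod (n := n) B (fun _ => (1 : ℝ)) (fun _ _ _ => rfl) P hPi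
    simpa using this
  have hQ : Ex (fun ω : Cfg V n => ∏ w ∈ B, (if ω w ∈ Q w ω then (1 : ℝ) else 0)) =
      Ex (fun ω => ∏ w ∈ B, (((Q w ω).card : ℝ) / (2 * n))) := by
    have := Ex_prod (n := n) B (fun _ => (1 : ℝ)) (fun _ _ _ => rfl) Q hQi
    simpa using this
  have hQ2 : Ex (fun ω : Cfg V n => ∏ w ∈ B, (((Q w ω).card : ℝ) / (2 * n))) = 1 / 2 ^ n := by
    have e1 : (fun ω : Cfg V n => ∏ w ∈ B, (((Q w ω).card : ℝ) / (2 * n))) = fun _ => 1 / 2 ^ n := by
      funext ω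
      have e2 : ∀ w ∈ B, (((Q w ω).card : ℝ) / (2 * n)) = 1 / 2 := by
        intro w _
        have e3 : (Q w ω).card = n := by
          have := card_ge (n := n) (!c) 0
          rw [Nat.sub_zero] at this
          simp only [Q]
          convert this using 2
        rw [e3]
        field_simp
      rw [Finset.prod_congr rfl e2, Finset.prod_const, hB, one_div_pow]
    rw [e1]
    exact Ex_const hn0 _
  have hstep : Pr (fun ω : Cfg V n => EvI H ix g M c B ω) +
      Ex (fun ω : Cfg V n => ∏ w ∈ B, (if ω w ∈ Q w ω then (1 : ℝ) else 0)) ≤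
      Ex (fun ω : Cfg V n => ∏ w ∈ B, (if ω w ∈ P w ω then (1 : ℝ) else 0)) := by
    unfold Pr
    rw [← Ex_add]
    refine Ex_mono fun ω => ?_
    have hnn : (0 : ℝ) ≤ ∏ w ∈ B, (if ω w ∈ P w ω then (1 : ℝ) else 0) :=
      Finset.prod_nonneg fun w _ => by split_ifs <;> norm_num
    by_cases hE : EvI H ix g M c B ω
    · rw [if_pos hE]
      obtain ⟨v, hv, hvc⟩ := hE.1
      have e1 : ∏ w ∈ B, (if ω w ∈ Q w ω then (1 : ℝ) else 0) = 0 := by
        apply Finset.prod_eq_zero hv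
        rw [if_neg]
        intro hmem
        simp only [Q, Finset.mem_filter] at hmem
        have h2 := hmem.2.1
        unfold col at hvc
        rw [hvc] at h2
        cases c <;> simp at h2
      have e2 : ∏ w ∈ B, (if ω w ∈ P w ω then (1 : ℝ) else 0) = 1 := by
        apply Finset.prod_eq_one
        intro w hw
        rw [if_pos]
        simp only [P, Finset.mem_filter, Finset.mem_univ, true_and]
        intro hc
        exact PI_mem H ix g M c B ω hE w hw hc
      rw [e1, e2]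
      norm_num
    · rw [if_neg hE, zero_add]
      apply Finset.prod_le_prod
      · intro w _; split_ifs <;> norm_num
      · intro w _
        by_cases hq : ω w ∈ Q w ω
        · have hp : ω w ∈ P w ω := by
            simp only [Q, P, Finset.mem_filter, Finset.mem_univ, true_and] at hq ⊢
            intro hc
            have h2 := hq.1
            rw [hc] at h2
            cases c <;> simp at h2
          rw [if_pos hq, if_pos hp]
        · rw [if_neg hq]; split_ifs <;> norm_num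
  rw [hA, hQ, hQ2] at hstep
  have hfin : Ex (fun ω : Cfg V n => ∏ w ∈ B, (((P w ω).card : ℝ) / (2 * n))) ≤
      (1 / 2 ^ n) * ((1 / (n : ℝ)) * ∑ u ∈ B,
        Ex (fun ω : Cfg V n => Real.exp ((MM (fam H B u) ix g M c u ω).card : ℝ))) := by
    rw [← Ex_sum, ← Ex_const_mul, ← Ex_const_mul]
    refine Ex_mono fun ω => ?_
    refine le_trans ?_ (PI_num hn B hB (fun u => (MM (fam H B u) ix g M c u ω).card))
    apply Finset.prod_le_prod
    · intro w _; positivity
    · intro w _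
      have h1 : (P w ω).card ≤ n + (MM (fam H B w) ix g M c w ω).card := by
        simp only [P]
        apply PI_card (n := n) c _ M
        intro j hj
        unfold MM at hj
        exact Finset.mem_range.1 (Finset.mem_filter.1 hj).1
      have h2 : ((P w ω).card : ℝ) ≤ (n : ℝ) + ((MM (fam H B w) ix g M c w ω).card : ℝ) := by
        exact_mod_cast h1
      exact div_le_div_of_nonneg_right h2 (by positivity)
  have hsum : (1 / 2 ^ n) * ((1 / (n : ℝ)) * ∑ u ∈ B,
        (Ex (fun ω : Cfg V n => Real.exp ((MM (fam H B u) ix g M c u ω).card : ℝ)) - 1)) =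
      (1 / 2 ^ n) * ((1 / (n : ℝ)) * ∑ u ∈ B,
        Ex (fun ω : Cfg V n => Real.exp ((MM (fam H B u) ix g M c u ω).card : ℝ))) - 1 / 2 ^ n := by
    rw [Finset.sum_sub_distrib, Finset.sum_const, hB, nsmul_eq_mul]
    field_simp
  rw [hsum]
  linarith

/-- `fam` of different vertices: total size -/
theorem sum_card_fam (H : Finset (Finset V)) (B : Finset V) :
    ∑ u ∈ B, (fam H B u).card ≤ H.card := by
  have h1 : ∑ u ∈ B, (fam H B u).card ≤ ∑ u ∈ B, (H.filter (fun A => A ∩ B = {u})).card :=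
    Finset.sum_le_sum fun u _ => Finset.card_image_le
  refine h1.trans ?_
  rw [← Finset.card_biUnion]
  · apply Finset.card_le_card
    intro A hA
    rw [Finset.mem_biUnion] at hA
    obtain ⟨u, _, hu⟩ := hA
    exact (Finset.mem_filter.1 hu).1
  · intro u _ v _ huv
    rw [Function.onFun, Finset.disjoint_left]
    intro A hA hA'
    have h2 := (Finset.mem_filter.1 hA).2
    have h3 := (Finset.mem_filter.1 hA').2
    rw [h2] at h3
    exact huv (Finset.singleton_injective h3)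

end

end PropB2
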