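import Pool.Agent.H66.PB2.Defs

/-! Module PRel of version 2: the weight of one relevant edge. -/

namespace PropB2

noncomputable section

open Finset Classical PropB

variable {V : Type*} [Fintype V] [DecidableEq V] {n : ℕ}

theorem PRel_card_point (c : Bool) (σ : ℕ) :
    ((univ : Finset (Bool × Fin n)).filter (fun x => x.1 = c ∧ (x.2 : ℕ) = σ)).card ≤ 1 := by
  rw [Finset.card_le_one]
  intro x hx y hy
  rw [Finset.mem_filter] at hx hy
  exact Prod.ext (hx.2.1.trans hy.2.1.symm) (Fin.ext (hx.2.2.trans hy.2.2.symm))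

theorem PRel_const (n m s σ : ℕ) (hn : 2 ≤ n) (hm : m ≤ n) (hms : m = max s σ) :
    Real.exp (s : ℝ) * ((1 / (2 * (n : ℝ))) * (((n - m : ℕ) : ℝ) / (2 * n)) ^ (n - 2)) ≤
      (15 / (n : ℝ)) * (1 / 2 ^ n) * Real.exp (-((σ - s : ℕ) : ℝ)) := by
  have hn0 : (0 : ℝ) < n := by
    have : 0 < n := by omega
    exact_mod_cast this
  have h1 : ((n - m : ℕ) : ℝ) / (2 * n) = (1 / 2) * (1 - (m : ℝ) / n) := by
    rw [Nat.cast_sub hm]
    field_simp
  have h2 : (1 - (m : ℝ) / n) ≤ Real.exp (-((m : ℝ) / n)) := by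
    have := Real.add_one_le_exp (-((m : ℝ) / n))
    linarith
  have h20 : (0 : ℝ) ≤ 1 - (m : ℝ) / n := by
    rw [sub_nonneg, div_le_one hn0]
    exact_mod_cast hm
  have h3 : (((n - m : ℕ) : ℝ) / (2 * n)) ^ (n - 2) ≤
      (1 / 2) ^ (n - 2) * Real.exp (-(m : ℝ) + 2) := by
    rw [h1, mul_pow]
    refine mul_le_mul_of_nonneg_left ?_ (by positivity)
    refine (pow_le_pow_left₀ h20 h2 (n - 2)).trans ?_
    rw [← Real.exp_nat_mul]
    apply Real.exp_le_exp.2
    rw [Nat.cast_sub hn]
    have hmn : (m : ℝ) / n ≤ 1 := by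
      rw [div_le_one hn0]
      exact_mod_cast hm
    have : ((n : ℝ) - (2 : ℕ)) * -((m : ℝ) / n) = -(m : ℝ) + 2 * ((m : ℝ) / n) := by
      push_cast
      field_simp
      ring
    rw [this]
    linarith
  have h4 : ((1 : ℝ) / 2) ^ (n - 2) = 4 * (1 / 2 ^ n) := by
    obtain ⟨k, rfl⟩ : ∃ k, n = k + 2 := ⟨n - 2, by omega⟩
    simp only [Nat.add_sub_cancel]
    rw [pow_add, one_div, one_div, inv_pow, mul_inv]
    norm_num
    ring
  have h5 : Real.exp (s : ℝ) * Real.exp (-(m : ℝ) + 2) =
      Real.exp 2 * Real.exp (-((σ - s : ℕ) : ℝ)) := by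
    rw [← Real.exp_add, ← Real.exp_add]
    congr 1
    rcases le_total s σ with h | h
    · rw [hms, max_eq_right h, Nat.cast_sub h]
      ring
    · rw [hms, max_eq_left h, Nat.sub_eq_zero_of_le h]
      push_cast
      ring
  have h6 : Real.exp 2 ≤ 15 / 2 := by
    have he := Real.exp_one_lt_d9
    have : Real.exp 2 = Real.exp 1 * Real.exp 1 := by
      rw [← Real.exp_add]
      norm_num
    rw [this]
    have h0 : 0 < Real.exp 1 := Real.exp_pos 1
    nlinarith
  have hE : 0 < Real.exp (-((σ - s : ℕ) : ℝ)) := Real.exp_pos _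
  calc Real.exp (s : ℝ) * ((1 / (2 * (n : ℝ))) * (((n - m : ℕ) : ℝ) / (2 * n)) ^ (n - 2))
      ≤ Real.exp (s : ℝ) * ((1 / (2 * (n : ℝ))) *
          ((1 / 2) ^ (n - 2) * Real.exp (-(m : ℝ) + 2))) := by
        refine mul_le_mul_of_nonneg_left (mul_le_mul_of_nonneg_left h3 (by positivity))
          (Real.exp_pos _).le
    _ = (1 / (2 * (n : ℝ))) * (4 * (1 / 2 ^ n)) *
          (Real.exp (s : ℝ) * Real.exp (-(m : ℝ) + 2)) := by
        rw [h4]
        ring
    _ = (2 * Real.exp 2) * ((1 / (n : ℝ)) * (1 / 2 ^ n) *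
          Real.exp (-((σ - s : ℕ) : ℝ))) := by
        rw [h5]
        field_simp
        ring
    _ ≤ 15 * ((1 / (n : ℝ)) * (1 / 2 ^ n) * Real.exp (-((σ - s : ℕ) : ℝ))) := by
        refine mul_le_mul_of_nonneg_right (by linarith) (by positivity)
    _ = (15 / (n : ℝ)) * (1 / 2 ^ n) * Real.exp (-((σ - s : ℕ) : ℝ)) := by
        ring

theorem Ex_RelAt (hn : 2 ≤ n) (ix : V → ℕ) (g : ℕ) (c : Bool) (A : Finset V)
    (hA : A.card + 1 = n) (w : V) (hw : w ∈ A) (s σ : ℕ) (hs : s ≤ n) (F : Cfg V n → ℝ)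
    (hF : ∀ ω, 0 ≤ F ω) (hFI : IndepOf A F) :
    Ex (fun ω : Cfg V n => if RelAt ix g c ω A w s ∧ lev ω w = σ then Real.exp (s : ℝ) * F ω
      else 0) ≤
      (15 / (n : ℝ)) * (1 / 2 ^ n) * Real.exp (-((σ - s : ℕ) : ℝ)) * Ex F := by
  have hExF : 0 ≤ Ex F := Ex_nonneg hF
  rcases Nat.lt_or_ge σ n with hσ | hσ
  · set m := max s σ with hm
    have hmn : m ≤ n := max_le hs hσ.le
    let P : V → Cfg V n → Finset (Bool × Fin n) := fun v _ =>
      if v = w then (univ : Finset (Bool × Fin n)).filter (fun x => x.1 = c ∧ (x.2 : ℕ) = σ)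
      else (univ : Finset (Bool × Fin n)).filter (fun x => x.1 = c ∧ m ≤ (x.2 : ℕ))
    have step1 : Ex (fun ω : Cfg V n => if RelAt ix g c ω A w s ∧ lev ω w = σ then
        Real.exp (s : ℝ) * F ω else 0) ≤
        Ex (fun ω : Cfg V n => (Real.exp (s : ℝ) * F ω) *
          ∏ v ∈ A, (if ω v ∈ P v ω then (1 : ℝ) else 0)) := by
      refine Ex_mono (fun ω => ?_)
      split_ifs with h
      · obtain ⟨⟨hlow, hcol, hlev, -⟩, hσw⟩ := h
        have hall : ∀ v ∈ A, (if ω v ∈ P v ω then (1 : ℝ) else 0) = 1 := by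
          intro v hv
          rw [if_pos]
          show ω v ∈ (if v = w then
            (univ : Finset (Bool × Fin n)).filter (fun x => x.1 = c ∧ (x.2 : ℕ) = σ)
            else (univ : Finset (Bool × Fin n)).filter (fun x => x.1 = c ∧ m ≤ (x.2 : ℕ)))
          by_cases hvw : v = w
          · rw [if_pos hvw, Finset.mem_filter]
            subst hvw
            exact ⟨Finset.mem_univ _, hcol v hv, hσw⟩
          · rw [if_neg hvw, Finset.mem_filter]
            refine ⟨Finset.mem_univ _, hcol v hv, ?_⟩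
            have h1 : s ≤ lev ω v := hlev v hv hvw
            have h2 : lev ω w ≤ lev ω v := by
              rcases hlow.2 v hv hvw with h | h
              · exact h.le
              · exact h.1.le
            have h3 : m ≤ lev ω v := max_le h1 (hσw ▸ h2)
            exact h3
        rw [Finset.prod_congr rfl hall, Finset.prod_const_one, mul_one]
      · refine mul_nonneg (mul_nonneg (Real.exp_pos _).le (hF ω))
          (Finset.prod_nonneg (fun v _ => ?_))
        split_ifs <;> norm_num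
    have step2 := Ex_prod A (fun ω : Cfg V n => Real.exp (s : ℝ) * F ω)
      (fun ω ω' h => by
        have : F ω = F ω' := hFI ω ω' h
        simp only [this]) P (fun v _ => fun _ _ _ => rfl)
    have hprod : ∀ ω : Cfg V n, ∏ v ∈ A, (((P v ω).card : ℝ) / (2 * n)) ≤
        (1 / (2 * (n : ℝ))) * (((n - m : ℕ) : ℝ) / (2 * n)) ^ (n - 2) := by
      intro ω
      rw [← Finset.mul_prod_erase A _ hw]
      have hPw : ((P w ω).card : ℝ) ≤ 1 := by
        have : (P w ω).card ≤ 1 := by
          show (if w = w then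
            (univ : Finset (Bool × Fin n)).filter (fun x => x.1 = c ∧ (x.2 : ℕ) = σ)
            else (univ : Finset (Bool × Fin n)).filter
              (fun x => x.1 = c ∧ m ≤ (x.2 : ℕ))).card ≤ 1
          rw [if_pos rfl]
          exact PRel_card_point c σ
        exact_mod_cast this
      have hPe : ∏ v ∈ A.erase w, (((P v ω).card : ℝ) / (2 * n)) =
          (((n - m : ℕ) : ℝ) / (2 * n)) ^ (n - 2) := by
        have h1 : ∀ v ∈ A.erase w, (((P v ω).card : ℝ) / (2 * n)) =
            (((n - m : ℕ) : ℝ) / (2 * n)) := by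
          intro v hv
          have hvw : v ≠ w := Finset.ne_of_mem_erase hv
          have : (P v ω).card = n - m := by
            show (if v = w then
              (univ : Finset (Bool × Fin n)).filter (fun x => x.1 = c ∧ (x.2 : ℕ) = σ)
              else (univ : Finset (Bool × Fin n)).filter
                (fun x => x.1 = c ∧ m ≤ (x.2 : ℕ))).card = n - m
            rw [if_neg hvw]
            exact card_ge c m
          rw [this]
        rw [Finset.prod_congr rfl h1, Finset.prod_const]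
        congr 1
        rw [Finset.card_erase_of_mem hw]
        omega
      rw [hPe]
      refine mul_le_mul_of_nonneg_right ?_ (by positivity)
      exact div_le_div_of_nonneg_right hPw (by positivity)
    have step3 : Ex (fun ω : Cfg V n => (Real.exp (s : ℝ) * F ω) *
          ∏ v ∈ A, (((P v ω).card : ℝ) / (2 * n))) ≤
        Ex (fun ω : Cfg V n => ((15 / (n : ℝ)) * (1 / 2 ^ n) *
          Real.exp (-((σ - s : ℕ) : ℝ))) * F ω) := by
      refine Ex_mono (fun ω => ?_)
      have hc := PRel_const n m s σ hn hmn hm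
      calc (Real.exp (s : ℝ) * F ω) * ∏ v ∈ A, (((P v ω).card : ℝ) / (2 * n))
          ≤ (Real.exp (s : ℝ) * F ω) *
            ((1 / (2 * (n : ℝ))) * (((n - m : ℕ) : ℝ) / (2 * n)) ^ (n - 2)) :=
            mul_le_mul_of_nonneg_left (hprod ω) (mul_nonneg (Real.exp_pos _).le (hF ω))
        _ = (Real.exp (s : ℝ) *
            ((1 / (2 * (n : ℝ))) * (((n - m : ℕ) : ℝ) / (2 * n)) ^ (n - 2))) * F ω := by ring
        _ ≤ _ := mul_le_mul_of_nonneg_right hc (hF ω)
    calc _ ≤ _ := step1
      _ = _ := step2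
      _ ≤ _ := step3
      _ = _ := Ex_const_mul _ F
  · have h0 : Ex (fun ω : Cfg V n => if RelAt ix g c ω A w s ∧ lev ω w = σ then
        Real.exp (s : ℝ) * F ω else 0) ≤ Ex (fun ω : Cfg V n => 0 * F ω) := by
      refine Ex_mono (fun ω => ?_)
      rw [if_neg]
      · simp
      · rintro ⟨-, h⟩
        have : lev ω w < n := (ω w).2.2
        omega
    rw [Ex_const_mul, zero_mul] at h0
    refine h0.trans ?_
    have : 0 ≤ Real.exp (-((σ - s : ℕ) : ℝ)) := (Real.exp_pos _).le
    positivity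

end

end PropB2
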