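import Pool.Agent.H66.PB2.Defs
import Pool.Agent.H66.PB2.Drift
import Pool.Agent.H66.PB2.Drop

/-! Module QSum: the far part, in expectation. -/

namespace PropB2

noncomputable section

open Finset Classical PropB

variable {V : Type*} [Fintype V] [DecidableEq V] {n : ℕ}

theorem QSum_NA_antitone (EE : Finset (Finset V)) (c : Bool) (A : Finset V) (ω : Cfg V n) :
    Antitone (NA EE c A ω) := by
  intro s t hst
  unfold NA
  apply Finset.card_le_card
  apply Finset.monotone_filter_right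
  intro A' _ h v hv
  exact ⟨(h v hv).1, hst.trans (h v hv).2⟩

theorem QSum_one_le_NA (EE : Finset (Finset V)) (c : Bool) (A : Finset V) (hA : A ∈ EE)
    (ω : Cfg V n) (t : ℕ) : 1 ≤ NA EE c A ω t := by
  unfold NA
  apply Finset.card_pos.2
  refine ⟨A, Finset.mem_filter.2 ⟨hA, fun v hv => ?_⟩⟩
  rw [Finset.sdiff_self] at hv
  exact absurd hv (Finset.notMem_empty v)

theorem QSum_shift (M D : ℕ) (g : ℕ → ℝ) (h0 : ∀ s, 0 ≤ g s) :
    ∑ T ∈ range M, g (T - D) ≤ (D : ℝ) * g 0 + ∑ s ∈ range M, g s := by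
  rcases Nat.le_total M D with hMD | hMD
  · have e1 : ∑ T ∈ range M, g (T - D) = ∑ T ∈ range M, g 0 := by
      apply Finset.sum_congr rfl
      intro T hT
      have := Finset.mem_range.mp hT
      congr 1
      omega
    have e2 : ∑ T ∈ range M, g 0 = (M : ℝ) * g 0 := by simp
    have e3 : (M : ℝ) ≤ (D : ℝ) := by exact_mod_cast hMD
    have e4 : (M : ℝ) * g 0 ≤ (D : ℝ) * g 0 := mul_le_mul_of_nonneg_right e3 (h0 0)
    have e5 : 0 ≤ ∑ s ∈ range M, g s := Finset.sum_nonneg (fun s _ => h0 s)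
    linarith
  · obtain ⟨m, rfl⟩ := Nat.exists_eq_add_of_le hMD
    rw [Finset.sum_range_add]
    have e1 : ∑ T ∈ range D, g (T - D) = ∑ T ∈ range D, g 0 := by
      apply Finset.sum_congr rfl
      intro T hT
      have := Finset.mem_range.mp hT
      congr 1
      omega
    have e2 : ∑ T ∈ range D, g 0 = (D : ℝ) * g 0 := by simp
    have e3 : ∑ i ∈ range m, g (D + i - D) = ∑ i ∈ range m, g i := by
      apply Finset.sum_congr rfl
      intro i _
      congr 1
      omega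
    have e4 : ∑ i ∈ range m, g i ≤ ∑ i ∈ range (D + m), g i := by
      apply Finset.sum_le_sum_of_subset_of_nonneg
      · intro i hi
        have := Finset.mem_range.mp hi
        exact Finset.mem_range.mpr (by omega)
      · intro i _ _
        exact h0 i
    linarith

/-- one vertex, pathwise -/
theorem QSum_path (h K : ℕ) (N Q : ℕ → ℕ) (hN : Antitone N) (hN1 : ∀ t, 1 ≤ N t) :
    QS h K N Q ≤ 12 * h + ∑ t ∈ range K, (if Q t = 0 then 0 else 1 / (N t : ℝ)) := by
  set u : ℕ → ℝ := fun t => 1 / (N t : ℝ) with hu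
  set G : ℕ → ℝ := fun t => if Q t = 0 then 0 else 1 / (N t : ℝ) with hG
  have hNr : ∀ t, (1 : ℝ) ≤ N t := fun t => by exact_mod_cast hN1 t
  have hu0 : ∀ t, 0 ≤ u t := fun t => by
    have := hNr t
    show (0 : ℝ) ≤ 1 / (N t : ℝ)
    positivity
  have hu1 : ∀ t, u t ≤ 1 := fun t => by
    show 1 / (N t : ℝ) ≤ 1
    rw [div_le_one (by linarith [hNr t])]
    exact hNr t
  have hum : Monotone u := by
    intro a b hab
    show 1 / (N a : ℝ) ≤ 1 / (N b : ℝ)
    apply one_div_le_one_div_of_le (by linarith [hNr b])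
    exact_mod_cast hN hab
  have hG0 : ∀ t, 0 ≤ G t := fun t => by
    show (0 : ℝ) ≤ if Q t = 0 then 0 else 1 / (N t : ℝ)
    split_ifs
    · exact le_rfl
    · exact hu0 t
  have hG1 : ∀ t, G t ≤ 1 := fun t => by
    show (if Q t = 0 then 0 else 1 / (N t : ℝ)) ≤ 1
    split_ifs
    · exact zero_le_one
    · exact hu1 t
  have hterm : ∀ σ : ℕ, (if Q (σ - 4 * h) = 0 then (0 : ℝ) else 1 / (N (σ + 4 * h) : ℝ)) ≤
      ((1 - u (σ - 4 * h)) - (1 - u (σ + 4 * h))) + G (σ - 4 * h) := by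
    intro σ
    have hmon : u (σ - 4 * h) ≤ u (σ + 4 * h) := hum (by omega)
    by_cases hq : Q (σ - 4 * h) = 0
    · rw [if_pos hq]
      have := hG0 (σ - 4 * h)
      linarith
    · rw [if_neg hq]
      have e1 : G (σ - 4 * h) = u (σ - 4 * h) := if_neg hq
      have e2 : 1 / (N (σ + 4 * h) : ℝ) = u (σ + 4 * h) := rfl
      rw [e1, e2]
      linarith
  have hsum : QS h K N Q ≤ ∑ σ ∈ range K,
      (((1 - u (σ - 4 * h)) - (1 - u (σ + 4 * h))) + G (σ - 4 * h)) := by
    unfold QS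
    exact Finset.sum_le_sum (fun σ _ => hterm σ)
  rw [Finset.sum_add_distrib, Finset.sum_sub_distrib] at hsum
  have hg0 : ∀ s, 0 ≤ 1 - u s := fun s => by linarith [hu1 s]
  have hga : Antitone (fun s => 1 - u s) := fun a b hab => by
    have := hum hab
    show 1 - u b ≤ 1 - u a
    linarith
  have s1 := Drop_shift K (4 * h) (fun s => 1 - u s) hg0 hga
  have s2 := Drop_shift2 K (4 * h) (fun s => 1 - u s) hg0 hga
  have s3 := QSum_shift K (4 * h) G hG0
  have s4 : ((4 * h : ℕ) : ℝ) * (1 - u 0) ≤ ((4 * h : ℕ) : ℝ) * 1 :=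
    mul_le_mul_of_nonneg_left (by linarith [hu0 0]) (Nat.cast_nonneg _)
  have s5 : ((4 * h : ℕ) : ℝ) * G 0 ≤ ((4 * h : ℕ) : ℝ) * 1 :=
    mul_le_mul_of_nonneg_left (hG1 0) (Nat.cast_nonneg _)
  push_cast at s1 s2 s3 s4 s5
  linarith

/-- counting the vertices of `A` missed by some alive member -/
theorem QSum_count (EE : Finset (Finset V)) (hEE : ∀ A' ∈ EE, A'.card + 1 = n) (c : Bool)
    (A : Finset V) (hA : A ∈ EE) (ω : Cfg V n) (t : ℕ) :
    ∑ w ∈ A, (if QA EE c A w ω t = 0 then (0 : ℝ) else 1) ≤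
      ∑ A' ∈ EE.filter (fun A' => ∀ v ∈ A' \ A, col ω v = c ∧ t ≤ lev ω v),
        ((A' \ A).card : ℝ) := by
  have h1 : ∀ w ∈ A, (if QA EE c A w ω t = 0 then (0 : ℝ) else 1) ≤
      ∑ A' ∈ EE.filter (fun A' => ∀ v ∈ A' \ A, col ω v = c ∧ t ≤ lev ω v),
        (if w ∉ A' then (1 : ℝ) else 0) := by
    intro w _
    have e : (QA EE c A w ω t : ℝ) =
        ∑ A' ∈ EE.filter (fun A' => ∀ v ∈ A' \ A, col ω v = c ∧ t ≤ lev ω v),
        (if w ∉ A' then (1 : ℝ) else 0) := by
      rw [Finset.sum_boole, Finset.filter_filter]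
      unfold QA
      congr 2
      apply Finset.filter_congr
      intro A' _
      exact and_comm
    rw [← e]
    split_ifs with hq
    · exact Nat.cast_nonneg _
    · have : 1 ≤ QA EE c A w ω t := Nat.one_le_iff_ne_zero.2 hq
      exact_mod_cast this
  refine (Finset.sum_le_sum h1).trans ?_
  rw [Finset.sum_comm]
  apply Finset.sum_le_sum
  intro A' hA'
  have hA'E : A' ∈ EE := (Finset.mem_filter.1 hA').1
  rw [Finset.sum_boole]
  have e2 : A.filter (fun w => w ∉ A') = A \ A' := by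
    ext w
    simp [Finset.mem_sdiff]
  rw [e2]
  have c1 := hEE A hA
  have c2 := hEE A' hA'E
  have c3 : (A \ A').card = (A' \ A).card := by
    have k1 := Finset.card_sdiff_add_card_inter A A'
    have k2 := Finset.card_sdiff_add_card_inter A' A
    rw [Finset.inter_comm A' A] at k2
    omega
  rw [c3]

theorem QSum_harm1 (a a' : ℕ) (ha : 1 ≤ a) (m : ℕ) (hm : a' + m ≤ a) :
    (m : ℝ) / a ≤ ((harmonic (a' + m) : ℚ) : ℝ) - ((harmonic a' : ℚ) : ℝ) := by
  induction m with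
  | zero => simp
  | succ m ih =>
    have h1 := ih (by omega)
    have h2 := Drop_step (a' + m)
    have h3 : 1 / (a : ℝ) ≤ 1 / (((a' + m : ℕ) : ℝ) + 1) := by
      apply one_div_le_one_div_of_le (by positivity)
      have : a' + m + 1 ≤ a := by omega
      exact_mod_cast this
    have e : a' + (m + 1) = a' + m + 1 := rfl
    rw [e, h2]
    have e2 : ((m + 1 : ℕ) : ℝ) / a = (m : ℝ) / a + 1 / a := by
      push_cast
      ring
    rw [e2]
    linarith

theorem QSum_harm (K a a' : ℕ) (ha : 1 ≤ a) (h : a' ≤ a) (hK : a < K) :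
    ((a : ℝ) - a') / a ≤ Drop_f K a - Drop_f K a' := by
  obtain ⟨m, rfl⟩ := Nat.exists_eq_add_of_le h
  have h1 := QSum_harm1 (a' + m) a' ha m le_rfl
  unfold Drop_f
  rw [min_eq_left hK.le, min_eq_left (by omega : a' ≤ K)]
  have e : ((a' + m : ℕ) : ℝ) - a' = m := by
    push_cast
    ring
  rw [e]
  exact h1

theorem QSum_Ex_sub (f g : Cfg V n → ℝ) : Ex (fun ω => f ω - g ω) = Ex f - Ex g := by
  unfold Ex
  rw [Finset.sum_sub_distrib, sub_div]

/-- one level -/
theorem QSum_level (EE : Finset (Finset V)) (hEE : ∀ A' ∈ EE, A'.card + 1 = n) (c : Bool)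
    (A : Finset V) (hA : A ∈ EE) (K : ℕ) (hK : 1 ≤ K) (t : ℕ) (ht : t < n) :
    Ex (fun ω : Cfg V n => ∑ w ∈ A,
      (if QA EE c A w ω t = 0 then 0 else 1 / (NA EE c A ω t : ℝ))) ≤
      (n : ℝ) / K + 2 * n * (Ex (fun ω : Cfg V n => Drop_f K (NA EE c A ω t)) -
        Ex (fun ω : Cfg V n => Drop_f K (NA EE c A ω (t + 1)))) := by
  have hKr : (1 : ℝ) ≤ K := by exact_mod_cast hK
  have hn0 : (0 : ℝ) ≤ n := Nat.cast_nonneg n
  have hpt : ∀ ω : Cfg V n, ∑ w ∈ A,
      (if QA EE c A w ω t = 0 then 0 else 1 / (NA EE c A ω t : ℝ)) ≤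
      (n : ℝ) / K + (if NA EE c A ω t < K then
        (∑ A' ∈ EE.filter (fun A' => ∀ v ∈ A' \ A, col ω v = c ∧ t ≤ lev ω v),
          ((A' \ A).card : ℝ)) / (NA EE c A ω t : ℝ) else 0) := by
    intro ω
    have hN1 : (1 : ℝ) ≤ (NA EE c A ω t : ℝ) := by
      exact_mod_cast QSum_one_le_NA EE c A hA ω t
    have e : ∑ w ∈ A, (if QA EE c A w ω t = 0 then 0 else 1 / (NA EE c A ω t : ℝ)) =
        (∑ w ∈ A, (if QA EE c A w ω t = 0 then (0 : ℝ) else 1)) / (NA EE c A ω t : ℝ) := by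
      rw [Finset.sum_div]
      apply Finset.sum_congr rfl
      intro w _
      split_ifs
      · rw [zero_div]
      · rfl
    rw [e]
    by_cases hlt : NA EE c A ω t < K
    · rw [if_pos hlt]
      have h2 := div_le_div_of_nonneg_right (QSum_count EE hEE c A hA ω t)
        (by linarith : (0 : ℝ) ≤ (NA EE c A ω t : ℝ))
      have h3 : (0 : ℝ) ≤ (n : ℝ) / K := by positivity
      linarith
    · rw [if_neg hlt, add_zero]
      have hge : (K : ℝ) ≤ (NA EE c A ω t : ℝ) := by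
        exact_mod_cast Nat.not_lt.1 hlt
      have hcount : ∑ w ∈ A, (if QA EE c A w ω t = 0 then (0 : ℝ) else 1) ≤ n := by
        calc ∑ w ∈ A, (if QA EE c A w ω t = 0 then (0 : ℝ) else 1) ≤ ∑ w ∈ A, (1 : ℝ) := by
              apply Finset.sum_le_sum
              intro w _
              split_ifs <;> norm_num
          _ = (A.card : ℝ) := by simp
          _ ≤ n := by
              have := hEE A hA
              have h4 : A.card ≤ n := by omega
              exact_mod_cast h4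
      exact div_le_div₀ hn0 hcount (by linarith) hge
  refine (Ex_mono hpt).trans ?_
  rw [Ex_add]
  have h5 : Ex (fun _ : Cfg V n => (n : ℝ) / K) ≤ (n : ℝ) / K := Ex_const_le _ (by positivity)
  have h6 := drift EE hEE c A t K ht
  have h7 : Ex (fun ω : Cfg V n => if NA EE c A ω t < K then
        ((NA EE c A ω t : ℝ) - (NA EE c A ω (t + 1) : ℝ)) / (NA EE c A ω t : ℝ) else 0) ≤
      Ex (fun ω : Cfg V n => Drop_f K (NA EE c A ω t)) -
        Ex (fun ω : Cfg V n => Drop_f K (NA EE c A ω (t + 1))) := by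
    rw [← QSum_Ex_sub]
    apply Ex_mono
    intro ω
    have hle : NA EE c A ω (t + 1) ≤ NA EE c A ω t := QSum_NA_antitone EE c A ω (Nat.le_succ t)
    split_ifs with hlt
    · exact QSum_harm K _ _ (QSum_one_le_NA EE c A hA ω t) hle hlt
    · have := Drop_f_mono K hle
      linarith
  have h8 := mul_le_mul_of_nonneg_left h7 (by positivity : (0 : ℝ) ≤ 2 * n)
  linarith

/-! ## Module QSum (uses drift) -/

theorem Ex_QS (EE : Finset (Finset V)) (hEE : ∀ A' ∈ EE, A'.card + 1 = n) (c : Bool)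
    (A : Finset V) (hA : A ∈ EE) (h K : ℕ) (h1 : 1 ≤ h) (hK : 1 ≤ K) (hKn : K ≤ n) :
    Ex (fun ω : Cfg V n => ∑ w ∈ A, QS h K (NA EE c A ω) (QA EE c A w ω)) ≤
      n * (20 * h + 6 + 4 * Real.log (K : ℝ)) := by
  have hKr : (1 : ℝ) ≤ K := by exact_mod_cast hK
  have hn0 : (0 : ℝ) ≤ n := Nat.cast_nonneg n
  have hh : (1 : ℝ) ≤ h := by exact_mod_cast h1
  have hlog : 0 ≤ Real.log (K : ℝ) := Real.log_nonneg hKr
  have hAn : (A.card : ℝ) ≤ n := by
    have := hEE A hA
    have h4 : A.card ≤ n := by omega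
    exact_mod_cast h4
  have p1 : ∀ ω : Cfg V n, ∑ w ∈ A, QS h K (NA EE c A ω) (QA EE c A w ω) ≤
      (n : ℝ) * (12 * h) + ∑ t ∈ range K, ∑ w ∈ A,
        (if QA EE c A w ω t = 0 then 0 else 1 / (NA EE c A ω t : ℝ)) := by
    intro ω
    have q1 : ∀ w ∈ A, QS h K (NA EE c A ω) (QA EE c A w ω) ≤
        12 * h + ∑ t ∈ range K, (if QA EE c A w ω t = 0 then 0 else 1 / (NA EE c A ω t : ℝ)) :=
      fun w _ => QSum_path h K (NA EE c A ω) (QA EE c A w ω) (QSum_NA_antitone EE c A ω)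
        (fun t => QSum_one_le_NA EE c A hA ω t)
    refine (Finset.sum_le_sum q1).trans ?_
    rw [Finset.sum_add_distrib, Finset.sum_const, nsmul_eq_mul, Finset.sum_comm]
    have q2 : (A.card : ℝ) * (12 * h) ≤ (n : ℝ) * (12 * h) :=
      mul_le_mul_of_nonneg_right hAn (by positivity)
    linarith
  refine (Ex_mono p1).trans ?_
  rw [Ex_add]
  have p2 : Ex (fun _ : Cfg V n => (n : ℝ) * (12 * h)) ≤ (n : ℝ) * (12 * h) :=
    Ex_const_le _ (by positivity)
  have p3 : Ex (fun ω : Cfg V n => ∑ t ∈ range K, ∑ w ∈ A,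
        (if QA EE c A w ω t = 0 then 0 else 1 / (NA EE c A ω t : ℝ))) ≤
      (n : ℝ) + 2 * n * (1 + Real.log (K : ℝ)) := by
    rw [Ex_sum]
    have r1 : ∀ t ∈ range K, Ex (fun ω : Cfg V n => ∑ w ∈ A,
        (if QA EE c A w ω t = 0 then 0 else 1 / (NA EE c A ω t : ℝ))) ≤
        (n : ℝ) / K + 2 * n * (Ex (fun ω : Cfg V n => Drop_f K (NA EE c A ω t)) -
          Ex (fun ω : Cfg V n => Drop_f K (NA EE c A ω (t + 1)))) := by
      intro t ht
      exact QSum_level EE hEE c A hA K hK t (lt_of_lt_of_le (Finset.mem_range.1 ht) hKn)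
    refine (Finset.sum_le_sum r1).trans ?_
    rw [Finset.sum_add_distrib, Finset.sum_const, Finset.card_range, nsmul_eq_mul,
      ← Finset.mul_sum,
      Finset.sum_range_sub' (fun t => Ex (fun ω : Cfg V n => Drop_f K (NA EE c A ω t)))]
    have r2 : (K : ℝ) * ((n : ℝ) / K) = n := by
      have hK0 : (K : ℝ) ≠ 0 := by linarith
      field_simp
    have r3 : Ex (fun ω : Cfg V n => Drop_f K (NA EE c A ω 0)) ≤ 1 + Real.log (K : ℝ) := by
      refine (Ex_mono (fun ω => Drop_f_le K (NA EE c A ω 0) hK)).trans ?_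
      exact Ex_const_le _ (by linarith)
    have r4 : 0 ≤ Ex (fun ω : Cfg V n => Drop_f K (NA EE c A ω K)) :=
      Ex_nonneg (fun ω => Drop_f_nonneg K _)
    have r5 := mul_le_mul_of_nonneg_left
      (by linarith : Ex (fun ω : Cfg V n => Drop_f K (NA EE c A ω 0)) -
        Ex (fun ω : Cfg V n => Drop_f K (NA EE c A ω K)) ≤ 1 + Real.log (K : ℝ))
      (by positivity : (0 : ℝ) ≤ 2 * n)
    rw [r2]
    linarith
  have p4 : (n : ℝ) * (12 * h) + ((n : ℝ) + 2 * n * (1 + Real.log (K : ℝ))) ≤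
      n * (20 * h + 6 + 4 * Real.log (K : ℝ)) := by
    nlinarith [mul_nonneg hn0 hlog, mul_nonneg hn0 (by linarith : (0 : ℝ) ≤ h)]
  linarith

end

end PropB2
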