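import Pool.Agent.H66.PB2.Defs

/-! Module Sum of version 2: the weighted sum `TT`. -/

namespace PropB2

noncomputable section

open Finset Classical PropB

theorem Sum_tel (f g : ℕ → ℝ) (hfg : ∀ i, f i ≤ g i - g (i + 1)) (hg : ∀ i, 0 ≤ g i) (n : ℕ) :
    ∑ i ∈ range n, f i ≤ g 0 := by
  have h1 : ∑ i ∈ range n, f i ≤ ∑ i ∈ range n, (g i - g (i + 1)) :=
    Finset.sum_le_sum (fun i _ => hfg i)
  have h2 := Finset.sum_range_sub' g n
  have h3 := hg n
  linarith

theorem Sum_exp_half : 2 * Real.exp (-1 : ℝ) ≤ 1 := by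
  have h1 : (2 : ℝ) ≤ Real.exp 1 := by
    have := Real.add_one_le_exp (1 : ℝ)
    linarith
  have h2 : Real.exp (-1 : ℝ) * Real.exp 1 = 1 := by
    rw [← Real.exp_add]; norm_num
  have h3 := Real.exp_pos (-1 : ℝ)
  nlinarith

/-- tail sum -/
theorem Sum_tail (s h n : ℕ) :
    ∑ σ ∈ range n, (if s + h < σ then Real.exp (-((σ - s : ℕ) : ℝ)) else 0) ≤
      Real.exp (-(h : ℝ)) := by
  have key := Sum_tel (fun σ => if s + h < σ then Real.exp (-((σ - s : ℕ) : ℝ)) else 0)
    (fun σ => Real.exp (-((max σ (s + h + 1) - 1 - s : ℕ) : ℝ))) ?_ (fun i => (Real.exp_pos _).le) n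
  · refine key.trans (le_of_eq ?_)
    have : (max 0 (s + h + 1) - 1 - s : ℕ) = h := by
      rw [max_eq_right (Nat.zero_le _)]; omega
    simp only [this]
  · intro i
    split_ifs with hi
    · have e1 : (max i (s + h + 1) - 1 - s : ℕ) = i - 1 - s := by
        rw [max_eq_left (by omega)]
      have e2 : (max (i + 1) (s + h + 1) - 1 - s : ℕ) = i - s := by
        rw [max_eq_left (by omega)]; omega
      rw [e1, e2]
      have e3 : ((i - s : ℕ) : ℝ) = ((i - 1 - s : ℕ) : ℝ) + 1 := by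
        have : i - s = (i - 1 - s) + 1 := by omega
        rw [this]; push_cast; ring
      rw [e3]
      have e4 : Real.exp (-(((i - 1 - s : ℕ) : ℝ) + 1)) =
          Real.exp (-((i - 1 - s : ℕ) : ℝ)) * Real.exp (-1) := by
        rw [← Real.exp_add]; ring_nf
      rw [e4]
      have h1 := Sum_exp_half
      have h2 := Real.exp_pos (-((i - 1 - s : ℕ) : ℝ))
      nlinarith
    · have e1 : (max i (s + h + 1) - 1 - s : ℕ) = h := by
        rw [max_eq_right (by omega)]; omega
      have e2 : (max (i + 1) (s + h + 1) - 1 - s : ℕ) = h := by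
        rw [max_eq_right (by omega)]; omega
      rw [e1, e2]
      simp

/-- left part -/
theorem Sum_left (σ M : ℕ) :
    ∑ s ∈ range M, (if s ≤ σ then Real.exp (-((σ - s : ℕ) : ℝ)) else 0) ≤ 2 := by
  have hnn : ∀ s : ℕ, 0 ≤ (if s ≤ σ then Real.exp (-((σ - s : ℕ) : ℝ)) else 0) := by
    intro s
    split_ifs
    · exact (Real.exp_pos _).le
    · exact le_refl _
  have h1 : ∑ s ∈ range M, (if s ≤ σ then Real.exp (-((σ - s : ℕ) : ℝ)) else 0) ≤
      ∑ s ∈ range (σ + 1), (if s ≤ σ then Real.exp (-((σ - s : ℕ) : ℝ)) else 0) := by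
    rw [← Finset.sum_filter_add_sum_filter_not (range M) (fun s => s ≤ σ)]
    have hz : ∑ s ∈ (range M).filter (fun s => ¬ s ≤ σ),
        (if s ≤ σ then Real.exp (-((σ - s : ℕ) : ℝ)) else 0) = 0 := by
      apply Finset.sum_eq_zero
      intro s hs
      rw [Finset.mem_filter] at hs
      rw [if_neg hs.2]
    rw [hz, add_zero]
    apply Finset.sum_le_sum_of_subset_of_nonneg
    · intro s hs
      rw [Finset.mem_filter] at hs
      rw [Finset.mem_range]
      omega
    · intro s _ _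
      exact hnn s
  have h2 : ∑ s ∈ range (σ + 1), (if s ≤ σ then Real.exp (-((σ - s : ℕ) : ℝ)) else 0) =
      ∑ s ∈ range (σ + 1), Real.exp (-((s : ℕ) : ℝ)) := by
    rw [← Finset.sum_range_reflect]
    apply Finset.sum_congr rfl
    intro s hs
    rw [Finset.mem_range] at hs
    have e1 : σ + 1 - 1 - s ≤ σ := by omega
    have e2 : σ - (σ + 1 - 1 - s) = s := by omega
    rw [if_pos e1, e2]
  have h3 : ∑ s ∈ range (σ + 1), Real.exp (-((s : ℕ) : ℝ)) ≤ 2 := by
    have key := Sum_tel (fun s => Real.exp (-((s : ℕ) : ℝ)))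
      (fun s => 2 * Real.exp (-((s : ℕ) : ℝ))) ?_ (fun i => by positivity) (σ + 1)
    · refine key.trans (le_of_eq ?_)
      simp
    · intro i
      have e4 : Real.exp (-((i + 1 : ℕ) : ℝ)) = Real.exp (-(i : ℝ)) * Real.exp (-1) := by
        rw [← Real.exp_add]; push_cast; ring_nf
      rw [e4]
      have h1 := Sum_exp_half
      have h2 := Real.exp_pos (-(i : ℝ))
      nlinarith
  linarith

/-- count of the levels above `σ` -/
theorem Sum_right (σ M h : ℕ) :
    ∑ s ∈ range M, (if σ < s ∧ s ≤ σ + 4 * h then (1 : ℝ) else 0) ≤ 4 * h := by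
  rw [← Finset.sum_filter]
  rw [Finset.sum_const, nsmul_eq_mul, mul_one]
  have : ((range M).filter (fun s => σ < s ∧ s ≤ σ + 4 * h)).card ≤ 4 * h := by
    calc _ ≤ (Finset.Ioc σ (σ + 4 * h)).card := by
          apply Finset.card_le_card
          intro s hs
          rw [Finset.mem_filter] at hs
          rw [Finset.mem_Ioc]
          exact hs.2
      _ = 4 * h := by rw [Nat.card_Ioc]; omega
  exact_mod_cast this

theorem Sum_exp_half2 : 3 * Real.exp (-(1 / 2) : ℝ) ≤ 2 := by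
  have h1 : (3 / 2 : ℝ) ≤ Real.exp (1 / 2) := by
    have := Real.add_one_le_exp (1 / 2 : ℝ)
    linarith
  have h2 : Real.exp (-(1 / 2) : ℝ) * Real.exp (1 / 2) = 1 := by
    rw [← Real.exp_add]; norm_num
  have h3 := Real.exp_pos (-(1 / 2) : ℝ)
  nlinarith

/-- geometric part above `σ` -/
theorem Sum_geo (σ M : ℕ) :
    ∑ s ∈ range M, (if σ < s then Real.exp (-(((s - σ) / 2 : ℕ) : ℝ)) else 0) ≤ 3 := by
  have key := Sum_tel (fun s => if σ < s then Real.exp (-(((s - σ) / 2 : ℕ) : ℝ)) else 0)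
    (fun s => 3 * Real.exp (-(((max s (σ + 1) - σ - 1 : ℕ) : ℝ) / 2))) ?_
    (fun i => by positivity) M
  · refine key.trans (le_of_eq ?_)
    have : (max 0 (σ + 1) - σ - 1 : ℕ) = 0 := by
      rw [max_eq_right (Nat.zero_le _)]; omega
    simp only [this]
    simp
  · intro i
    split_ifs with hi
    · have e1 : (max i (σ + 1) - σ - 1 : ℕ) = i - σ - 1 := by
        rw [max_eq_left (by omega)]
      have e2 : (max (i + 1) (σ + 1) - σ - 1 : ℕ) = (i - σ - 1) + 1 := by
        rw [max_eq_left (by omega)]; omega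
      rw [e1, e2]
      have e3 : Real.exp (-((((i - σ - 1) + 1 : ℕ) : ℝ) / 2)) =
          Real.exp (-(((i - σ - 1 : ℕ) : ℝ) / 2)) * Real.exp (-(1 / 2)) := by
        rw [← Real.exp_add]; push_cast; ring_nf
      rw [e3]
      have h1 := Sum_exp_half2
      have h2 := Real.exp_pos (-(((i - σ - 1 : ℕ) : ℝ) / 2))
      have h3 : Real.exp (-(((i - σ) / 2 : ℕ) : ℝ)) ≤
          Real.exp (-(((i - σ - 1 : ℕ) : ℝ) / 2)) := by
        apply Real.exp_le_exp.mpr
        have : (i - σ - 1 : ℕ) ≤ 2 * ((i - σ) / 2) := by omega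
        have h4 : ((i - σ - 1 : ℕ) : ℝ) ≤ 2 * (((i - σ) / 2 : ℕ) : ℝ) := by exact_mod_cast this
        linarith
      nlinarith
    · have e1 : (max i (σ + 1) - σ - 1 : ℕ) = 0 := by
        rw [max_eq_right (by omega)]; omega
      have e2 : (max (i + 1) (σ + 1) - σ - 1 : ℕ) = 0 := by
        rw [max_eq_right (by omega)]; omega
      rw [e1, e2]
      simp

/-- flat bound of the inner sum -/
theorem Sum_flat (σ M h : ℕ) :
    ∑ s ∈ range M, (if s ≤ σ + 4 * h then Real.exp (-((σ - s : ℕ) : ℝ)) else 0) ≤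
      2 + 4 * h := by
  have h1 : ∀ s ∈ range M, (if s ≤ σ + 4 * h then Real.exp (-((σ - s : ℕ) : ℝ)) else 0) ≤
      (if s ≤ σ then Real.exp (-((σ - s : ℕ) : ℝ)) else 0) +
        (if σ < s ∧ s ≤ σ + 4 * h then (1 : ℝ) else 0) := by
    intro s _
    by_cases hs : s ≤ σ
    · rw [if_pos (by omega : s ≤ σ + 4 * h), if_pos hs,
        if_neg (by omega : ¬ (σ < s ∧ s ≤ σ + 4 * h)), add_zero]
    · by_cases h2 : s ≤ σ + 4 * h
      · rw [if_pos h2, if_neg hs, if_pos (by omega : σ < s ∧ s ≤ σ + 4 * h), zero_add]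
        rw [Real.exp_le_one_iff]
        have : (0 : ℝ) ≤ ((σ - s : ℕ) : ℝ) := Nat.cast_nonneg _
        linarith
      · rw [if_neg h2, if_neg hs, if_neg (by omega : ¬ (σ < s ∧ s ≤ σ + 4 * h)), add_zero]
  have h2 := Finset.sum_le_sum h1
  rw [Finset.sum_add_distrib] at h2
  have h3 := Sum_left σ M
  have h4 := Sum_right σ M h
  linarith

/-- decaying bound of the inner sum -/
theorem Sum_decay (σ M : ℕ) :
    ∑ s ∈ range M, Real.exp (-((σ - s : ℕ) : ℝ)) * Real.exp (-(((s - σ) / 2 : ℕ) : ℝ)) ≤ 5 := by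
  have h1 : ∀ s ∈ range M,
      Real.exp (-((σ - s : ℕ) : ℝ)) * Real.exp (-(((s - σ) / 2 : ℕ) : ℝ)) ≤
      (if s ≤ σ then Real.exp (-((σ - s : ℕ) : ℝ)) else 0) +
        (if σ < s then Real.exp (-(((s - σ) / 2 : ℕ) : ℝ)) else 0) := by
    intro s _
    by_cases hs : s ≤ σ
    · rw [if_pos hs, if_neg (by omega : ¬ σ < s), add_zero]
      have : (s - σ) / 2 = 0 := by
        rw [Nat.sub_eq_zero_of_le hs]
      rw [this]
      simp
    · rw [if_neg hs, if_pos (by omega : σ < s), zero_add]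
      have : σ - s = 0 := by omega
      rw [this]
      simp
  have h2 := Finset.sum_le_sum h1
  rw [Finset.sum_add_distrib] at h2
  have h3 := Sum_left σ M
  have h4 := Sum_geo σ M
  linarith

/-- the bound for one `σ` -/
theorem Sum_one (h M : ℕ) (N Q : ℕ → ℕ) (σ : ℕ) :
    ∑ s ∈ range M, (if s ≤ σ + 4 * h then Real.exp (-((σ - s : ℕ) : ℝ)) * GG h N Q σ s else 0) ≤
      (if σ < 2 * h then (2 + 4 * h : ℝ) else 0) +
        (2 + 4 * h) * Real.exp (-((h / 2 : ℕ) : ℝ)) +
        5 * (if N (σ - 6 * h) = N (σ + 4 * h) then 0 else 1 / (N (σ + 4 * h) : ℝ)) +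
        (2 + 4 * h) * (if Q (σ - 4 * h) = 0 then 0 else 1 / (N (σ + 4 * h) : ℝ)) := by
  have hN : (0 : ℝ) ≤ 1 / (N (σ + 4 * h) : ℝ) := by positivity
  have hh : (0 : ℝ) ≤ 2 + 4 * (h : ℝ) := by positivity
  have he : (0 : ℝ) ≤ Real.exp (-((h / 2 : ℕ) : ℝ)) := (Real.exp_pos _).le
  have hflat := Sum_flat σ M h
  have p1 : (0 : ℝ) ≤ (if σ < 2 * h then (2 + 4 * h : ℝ) else 0) := by
    split_ifs
    · exact hh
    · exact le_refl _
  have p2 : (0 : ℝ) ≤ (2 + 4 * h) * Real.exp (-((h / 2 : ℕ) : ℝ)) := mul_nonneg hh he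
  have p3 : (0 : ℝ) ≤ 5 * (if N (σ - 6 * h) = N (σ + 4 * h) then 0 else
      1 / (N (σ + 4 * h) : ℝ)) := by
    split_ifs
    · simp
    · positivity
  have p4 : (0 : ℝ) ≤ (2 + 4 * h) * (if Q (σ - 4 * h) = 0 then 0 else
      1 / (N (σ + 4 * h) : ℝ)) := by
    split_ifs
    · simp
    · positivity
  have hconst : ∀ C : ℝ, 0 ≤ C → (∀ s, GG h N Q σ s = C) →
      ∑ s ∈ range M, (if s ≤ σ + 4 * h then
        Real.exp (-((σ - s : ℕ) : ℝ)) * GG h N Q σ s else 0) ≤ (2 + 4 * h) * C := by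
    intro C hC hG
    have : ∀ s ∈ range M, (if s ≤ σ + 4 * h then
        Real.exp (-((σ - s : ℕ) : ℝ)) * GG h N Q σ s else 0) =
        (if s ≤ σ + 4 * h then Real.exp (-((σ - s : ℕ) : ℝ)) else 0) * C := by
      intro s _
      rw [hG s]
      split_ifs
      · rfl
      · rw [zero_mul]
    rw [Finset.sum_congr rfl this, ← Finset.sum_mul]
    exact mul_le_mul_of_nonneg_right hflat hC
  by_cases c1 : σ < 2 * h
  · have := hconst 1 zero_le_one (fun s => by unfold GG; rw [if_pos c1])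
    rw [if_pos c1]
    linarith
  · by_cases c2 : Q (σ - 4 * h) = 0
    · by_cases c3 : N (σ - 6 * h) = N (σ + 4 * h)
      · have := hconst _ he (fun s => by unfold GG; rw [if_neg c1, if_pos c2, if_pos c3])
        linarith
      · have hG : ∀ s, GG h N Q σ s =
            Real.exp (-(((s - σ) / 2 : ℕ) : ℝ)) / (N (σ + 4 * h) : ℝ) := by
          intro s; unfold GG; rw [if_neg c1, if_pos c2, if_neg c3]
        have h1 : ∀ s ∈ range M, (if s ≤ σ + 4 * h then
            Real.exp (-((σ - s : ℕ) : ℝ)) * GG h N Q σ s else 0) ≤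
            (Real.exp (-((σ - s : ℕ) : ℝ)) * Real.exp (-(((s - σ) / 2 : ℕ) : ℝ))) *
              (1 / (N (σ + 4 * h) : ℝ)) := by
          intro s _
          rw [hG s]
          split_ifs
          · apply le_of_eq; ring
          · positivity
        have h2 := Finset.sum_le_sum h1
        rw [← Finset.sum_mul] at h2
        have h3 := mul_le_mul_of_nonneg_right (Sum_decay σ M) hN
        rw [if_neg c3]
        rw [if_neg c3] at p3
        linarith
    · have := hconst _ hN (fun s => by unfold GG; rw [if_neg c1, if_neg c2])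
      rw [if_neg c2]
      rw [if_neg c2] at p4
      linarith

theorem TT_le (h M n : ℕ) (h1 : 1 ≤ h) (N Q : ℕ → ℕ) (hN : Antitone N) (hN1 : ∀ t, 1 ≤ N t) :
    TT h M n N Q ≤ (M : ℝ) * Real.exp (-(h : ℝ)) + 2 * h * (2 + 4 * h) +
      ((M : ℝ) + h) * (2 + 4 * h) * Real.exp (-((h / 2 : ℕ) : ℝ)) +
      5 * DropS h (M + h) N + (2 + 4 * h) * QS h (M + h) N Q := by
  have hGG : ∀ σ s, 0 ≤ GG h N Q σ s := by
    intro σ s
    unfold GG
    split_ifs <;> positivity
  -- split
  have hsplit : TT h M n N Q ≤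
      ∑ s ∈ range M, ∑ σ ∈ range n,
        (if s + h < σ then Real.exp (-((σ - s : ℕ) : ℝ)) else 0) +
      ∑ s ∈ range M, ∑ σ ∈ range n,
        (if s ≤ σ + 4 * h ∧ σ ≤ s + h then
          Real.exp (-((σ - s : ℕ) : ℝ)) * GG h N Q σ s else 0) := by
    unfold TT
    rw [← Finset.sum_add_distrib]
    apply Finset.sum_le_sum
    intro s _
    rw [← Finset.sum_add_distrib]
    apply Finset.sum_le_sum
    intro σ _
    have e1 := (Real.exp_pos (-((σ - s : ℕ) : ℝ))).le
    have e2 := mul_nonneg e1 (hGG σ s)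
    by_cases c1 : s ≤ σ + 4 * h
    · by_cases c2 : σ ≤ s + h
      · rw [if_pos c1, if_pos c2, if_neg (by omega : ¬ s + h < σ), if_pos ⟨c1, c2⟩, zero_add]
      · rw [if_pos c1, if_neg c2, if_pos (by omega : s + h < σ), if_neg (fun hc => c2 hc.2),
          mul_one, add_zero]
    · rw [if_neg c1]
      apply add_nonneg <;> split_ifs <;> first | exact e1 | exact e2 | exact le_refl _
  have hA : ∑ s ∈ range M, ∑ σ ∈ range n,
        (if s + h < σ then Real.exp (-((σ - s : ℕ) : ℝ)) else 0) ≤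
      (M : ℝ) * Real.exp (-(h : ℝ)) := by
    calc _ ≤ ∑ s ∈ range M, Real.exp (-(h : ℝ)) :=
          Finset.sum_le_sum (fun s _ => Sum_tail s h n)
      _ = (M : ℝ) * Real.exp (-(h : ℝ)) := by
          rw [Finset.sum_const, Finset.card_range, nsmul_eq_mul]
  have hB : ∑ s ∈ range M, ∑ σ ∈ range n,
        (if s ≤ σ + 4 * h ∧ σ ≤ s + h then
          Real.exp (-((σ - s : ℕ) : ℝ)) * GG h N Q σ s else 0) ≤
      ∑ σ ∈ range (M + h), ∑ s ∈ range M,
        (if s ≤ σ + 4 * h then Real.exp (-((σ - s : ℕ) : ℝ)) * GG h N Q σ s else 0) := by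
    rw [Finset.sum_comm]
    have hz : ∀ σ, M + h ≤ σ → ∑ s ∈ range M, (if s ≤ σ + 4 * h ∧ σ ≤ s + h then
          Real.exp (-((σ - s : ℕ) : ℝ)) * GG h N Q σ s else 0) = 0 := by
      intro σ hσ
      apply Finset.sum_eq_zero
      intro s hs
      rw [Finset.mem_range] at hs
      rw [if_neg (by omega)]
    have hle : ∀ σ, ∑ s ∈ range M, (if s ≤ σ + 4 * h ∧ σ ≤ s + h then
          Real.exp (-((σ - s : ℕ) : ℝ)) * GG h N Q σ s else 0) ≤
        ∑ s ∈ range M, (if s ≤ σ + 4 * h then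
          Real.exp (-((σ - s : ℕ) : ℝ)) * GG h N Q σ s else 0) := by
      intro σ
      apply Finset.sum_le_sum
      intro s _
      have e1 := (Real.exp_pos (-((σ - s : ℕ) : ℝ))).le
      have e2 := mul_nonneg e1 (hGG σ s)
      by_cases c1 : s ≤ σ + 4 * h
      · by_cases c2 : σ ≤ s + h
        · rw [if_pos ⟨c1, c2⟩, if_pos c1]
        · rw [if_neg (fun hc => c2 hc.2), if_pos c1]
          exact e2
      · rw [if_neg (fun hc => c1 hc.1), if_neg c1]
    have hnn : ∀ σ, 0 ≤ ∑ s ∈ range M, (if s ≤ σ + 4 * h then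
          Real.exp (-((σ - s : ℕ) : ℝ)) * GG h N Q σ s else 0) := by
      intro σ
      apply Finset.sum_nonneg
      intro s _
      split_ifs
      · exact mul_nonneg (Real.exp_pos _).le (hGG σ s)
      · exact le_refl _
    rw [← Finset.sum_filter_add_sum_filter_not (range n) (fun σ => σ < M + h)]
    have hz2 : ∑ σ ∈ (range n).filter (fun σ => ¬ σ < M + h),
        ∑ s ∈ range M, (if s ≤ σ + 4 * h ∧ σ ≤ s + h then
          Real.exp (-((σ - s : ℕ) : ℝ)) * GG h N Q σ s else 0) = 0 := by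
      apply Finset.sum_eq_zero
      intro σ hσ
      rw [Finset.mem_filter] at hσ
      exact hz σ (by omega)
    rw [hz2, add_zero]
    refine (Finset.sum_le_sum (fun σ _ => hle σ)).trans ?_
    apply Finset.sum_le_sum_of_subset_of_nonneg
    · intro σ hσ
      rw [Finset.mem_filter] at hσ
      rw [Finset.mem_range]
      exact hσ.2
    · intro σ _ _
      exact hnn σ
  have hC := Finset.sum_le_sum (fun σ (_ : σ ∈ range (M + h)) => Sum_one h M N Q σ)
  rw [Finset.sum_add_distrib, Finset.sum_add_distrib, Finset.sum_add_distrib,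
    ← Finset.mul_sum, ← Finset.mul_sum, Finset.sum_const, Finset.card_range, nsmul_eq_mul] at hC
  have hmul : ∑ x ∈ range (M + h), (2 + 4 * (h : ℝ)) *
      (if Q (x - 4 * h) = 0 then 0 else 1 / (N (x + 4 * h) : ℝ)) =
      (2 + 4 * (h : ℝ)) * ∑ x ∈ range (M + h),
      (if Q (x - 4 * h) = 0 then 0 else 1 / (N (x + 4 * h) : ℝ)) := by
    rw [Finset.mul_sum]
  have hD : ∑ σ ∈ range (M + h), (if σ < 2 * h then (2 + 4 * h : ℝ) else 0) ≤
      2 * h * (2 + 4 * h) := by
    rw [← Finset.sum_filter, Finset.sum_const, nsmul_eq_mul]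
    apply mul_le_mul_of_nonneg_right _ (by positivity)
    have : ((range (M + h)).filter (fun σ => σ < 2 * h)).card ≤ 2 * h := by
      calc _ ≤ (range (2 * h)).card := by
            apply Finset.card_le_card
            intro σ hσ
            rw [Finset.mem_filter] at hσ
            rw [Finset.mem_range]
            exact hσ.2
        _ = 2 * h := Finset.card_range _
    exact_mod_cast this
  unfold DropS QS
  push_cast at hC
  linarith

end

end PropB2
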