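import Pool.Agent.H66.PB2.Defs

/-! Module Tele of property B, version 2: telescoping over the dangerous levels. -/

namespace PropB2

noncomputable section

open Finset Classical PropB

variable {V : Type*} [Fintype V] [DecidableEq V] {n : ℕ}

/-- telescoping of the exponential of the cardinality -/
theorem Tele_sum (S : Finset ℕ) :
    Real.exp (S.card : ℝ) - 1 =
      (Real.exp 1 - 1) * ∑ s ∈ S, Real.exp (((S.filter (fun j => j < s)).card : ℕ) : ℝ) := by
  induction S using Finset.induction_on_max with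
  | empty => simp
  | insert a S ha ih =>
    have hna : a ∉ S := fun h => lt_irrefl _ (ha a h)
    have h1 : (insert a S).filter (fun j => j < a) = S := by
      ext x
      simp only [mem_filter, mem_insert]
      constructor
      · rintro ⟨rfl | h, hx⟩
        · exact absurd hx (lt_irrefl _)
        · exact h
      · intro h
        exact ⟨Or.inr h, ha x h⟩
    have h2 : ∀ s ∈ S, (insert a S).filter (fun j => j < s) = S.filter (fun j => j < s) := by
      intro s hs
      ext x
      simp only [mem_filter, mem_insert]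
      constructor
      · rintro ⟨rfl | h, hx⟩
        · exact absurd (lt_trans hx (ha s hs)) (lt_irrefl _)
        · exact ⟨h, hx⟩
      · rintro ⟨h, hx⟩
        exact ⟨Or.inr h, hx⟩
    have h3 : ∑ s ∈ S, Real.exp ((((insert a S).filter (fun j => j < s)).card : ℕ) : ℝ) =
        ∑ s ∈ S, Real.exp (((S.filter (fun j => j < s)).card : ℕ) : ℝ) :=
      Finset.sum_congr rfl (fun s hs => by rw [h2 s hs])
    rw [Finset.sum_insert hna, h1, h3, mul_add, ← ih, Finset.card_insert_of_notMem hna]
    push_cast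
    rw [Real.exp_add]
    ring

theorem Tele_rel (ix : V → ℕ) (g : ℕ) (c : Bool) (u : V) (ω : Cfg V n) (A : Finset V) (s : ℕ)
    (hc : ∀ v ∈ A, col ω v = c) (hf : FlipAt ix g ω A u s) :
    ∃ w ∈ A, RelAt ix g c ω A w s := by
  obtain ⟨w, hw, h⟩ := hf
  refine ⟨w, hw.1, hw, hc, ?_, ?_⟩
  · intro v hv hvw
    rcases h with ⟨h1, _⟩ | ⟨_, h2, _⟩
    · have h3 : lev ω w ≤ lev ω v := by
        rcases hw.2 v hv hvw with h4 | ⟨h4, _⟩
        · exact h4.le
        · exact h4.le
      have h5 : s ≤ lev ω w := by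
        rcases h1 with h6 | ⟨h6, _⟩
        · exact h6.le
        · exact h6.le
      exact h5.trans h3
    · rcases h2 v hv hvw with h6 | ⟨h6, _⟩
      · exact h6.le
      · exact h6.le
  · rcases h with ⟨h1, _⟩ | ⟨_, _, h2⟩
    · have h5 : s ≤ lev ω w := by
        rcases h1 with h6 | ⟨h6, _⟩
        · exact h6.le
        · exact h6.le
      omega
    · exact h2.1.le

theorem Tele_one (EE : Finset (Finset V)) (ix : V → ℕ) (g M : ℕ)
    (c : Bool) (u : V) (ω : Cfg V n) (s : ℕ) (hs : s ∈ MM EE ix g M c u ω) (X : ℝ)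
    (hX : 0 ≤ X) :
    X ≤ ∑ A ∈ EE, ∑ w ∈ A,
        (if RelAt ix g c ω A w s then X / (SS EE ix g c s ω : ℝ) else 0) := by
  have h0 : ∀ A ∈ EE, ∀ w ∈ A,
      0 ≤ (if RelAt ix g c ω A w s then X / (SS EE ix g c s ω : ℝ) else 0) := by
    intro A _ w _
    split_ifs
    · exact div_nonneg hX (Nat.cast_nonneg _)
    · exact le_rfl
  have hpos : 0 < SS EE ix g c s ω := by
    unfold MM at hs
    rw [mem_filter] at hs
    obtain ⟨_, A, hA, hc, hf⟩ := hs
    obtain ⟨w, _, hw⟩ := Tele_rel ix g c u ω A s hc hf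
    exact Finset.card_pos.mpr ⟨A, mem_filter.mpr ⟨hA, w, hw⟩⟩
  have hpos' : (0 : ℝ) < (SS EE ix g c s ω : ℝ) := by exact_mod_cast hpos
  calc X = ∑ A ∈ EE.filter (fun A => ∃ w, RelAt ix g c ω A w s),
        X / (SS EE ix g c s ω : ℝ) := by
        rw [Finset.sum_const, nsmul_eq_mul]
        have : ((EE.filter (fun A => ∃ w, RelAt ix g c ω A w s)).card : ℝ) =
            (SS EE ix g c s ω : ℝ) := rfl
        rw [this]
        field_simp
    _ ≤ ∑ A ∈ EE.filter (fun A => ∃ w, RelAt ix g c ω A w s), ∑ w ∈ A,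
        (if RelAt ix g c ω A w s then X / (SS EE ix g c s ω : ℝ) else 0) := by
        refine Finset.sum_le_sum ?_
        intro A hA
        obtain ⟨hA1, w, hw⟩ := mem_filter.mp hA
        have hwA : w ∈ A := hw.1.1
        calc X / (SS EE ix g c s ω : ℝ)
            = (if RelAt ix g c ω A w s then X / (SS EE ix g c s ω : ℝ) else 0) := by
              rw [if_pos hw]
          _ ≤ _ := Finset.single_le_sum
              (f := fun w => if RelAt ix g c ω A w s then X / (SS EE ix g c s ω : ℝ) else 0)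
              (h0 A hA1) hwA
    _ ≤ _ := by
        refine Finset.sum_le_sum_of_subset_of_nonneg (filter_subset _ _) ?_
        intro A hA _
        exact Finset.sum_nonneg (h0 A hA)

theorem tele (EE : Finset (Finset V)) (ix : V → ℕ) (hix : Function.Injective ix) (g M : ℕ)
    (c : Bool) (u : V) (ω : Cfg V n) :
    Real.exp ((MM EE ix g M c u ω).card : ℝ) - 1 ≤
      2 * ∑ s ∈ range M, ∑ A ∈ EE, ∑ w ∈ A,
        (if RelAt ix g c ω A w s then
          Real.exp ((((MM EE ix g M c u ω).filter (fun j => j < s)).card : ℕ) : ℝ) /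
            (SS EE ix g c s ω : ℝ) else 0) := by
  rw [Tele_sum]
  have he : Real.exp 1 - 1 ≤ 2 := by
    have := Real.exp_one_lt_d9
    linarith
  have hsub : MM EE ix g M c u ω ⊆ range M := filter_subset _ _
  have h1 : ∑ s ∈ MM EE ix g M c u ω,
      Real.exp ((((MM EE ix g M c u ω).filter (fun j => j < s)).card : ℕ) : ℝ) ≤
      ∑ s ∈ range M, ∑ A ∈ EE, ∑ w ∈ A,
        (if RelAt ix g c ω A w s then
          Real.exp ((((MM EE ix g M c u ω).filter (fun j => j < s)).card : ℕ) : ℝ) /
            (SS EE ix g c s ω : ℝ) else 0) := by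
    calc ∑ s ∈ MM EE ix g M c u ω,
        Real.exp ((((MM EE ix g M c u ω).filter (fun j => j < s)).card : ℕ) : ℝ)
        ≤ ∑ s ∈ MM EE ix g M c u ω, ∑ A ∈ EE, ∑ w ∈ A,
        (if RelAt ix g c ω A w s then
          Real.exp ((((MM EE ix g M c u ω).filter (fun j => j < s)).card : ℕ) : ℝ) /
            (SS EE ix g c s ω : ℝ) else 0) :=
          Finset.sum_le_sum (fun s hs => Tele_one EE ix g M c u ω s hs _ (Real.exp_pos _).le)
      _ ≤ _ := by
          refine Finset.sum_le_sum_of_subset_of_nonneg hsub ?_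
          intro s _ _
          refine Finset.sum_nonneg (fun A _ => Finset.sum_nonneg (fun w _ => ?_))
          split_ifs
          · exact div_nonneg (Real.exp_pos _).le (Nat.cast_nonneg _)
          · exact le_rfl
  have h2 : 0 ≤ ∑ s ∈ MM EE ix g M c u ω,
      Real.exp ((((MM EE ix g M c u ω).filter (fun j => j < s)).card : ℕ) : ℝ) :=
    Finset.sum_nonneg (fun s _ => (Real.exp_pos _).le)
  calc (Real.exp 1 - 1) * ∑ s ∈ MM EE ix g M c u ω,
      Real.exp ((((MM EE ix g M c u ω).filter (fun j => j < s)).card : ℕ) : ℝ)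
      ≤ 2 * ∑ s ∈ MM EE ix g M c u ω,
      Real.exp ((((MM EE ix g M c u ω).filter (fun j => j < s)).card : ℕ) : ℝ) :=
        mul_le_mul_of_nonneg_right he h2
    _ ≤ _ := mul_le_mul_of_nonneg_left h1 (by norm_num)

end

end PropB2
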