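import Pool.Agent.H66.PB2.Defs
import Pool.Agent.H66.PB2.Tele
import Pool.Agent.H66.PB2.Calm
import Pool.Agent.H66.PB2.PRel
import Pool.Agent.H66.PB2.Sum
import Pool.Agent.H66.PB2.Drop
import Pool.Agent.H66.PB2.QSum

/-! Property B, version 2: assembly of the one-vertex bound. -/

namespace PropB2

noncomputable section

open Finset Classical PropB

variable {V : Type*} [Fintype V] [DecidableEq V] {n : ℕ}

theorem NA_antitone (EE : Finset (Finset V)) (c : Bool) (A : Finset V) (ω : Cfg V n) :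
    Antitone (NA EE c A ω) := by
  intro s t hst
  unfold NA
  apply Finset.card_le_card
  apply Finset.monotone_filter_right
  intro A' _ h v hv
  exact ⟨(h v hv).1, hst.trans (h v hv).2⟩

theorem one_le_NA (EE : Finset (Finset V)) (c : Bool) (A : Finset V) (hA : A ∈ EE)
    (ω : Cfg V n) (t : ℕ) : 1 ≤ NA EE c A ω t := by
  unfold NA
  apply Finset.card_pos.2
  refine ⟨A, Finset.mem_filter.2 ⟨hA, fun v hv => ?_⟩⟩
  rw [Finset.sdiff_self] at hv
  exact absurd hv (Finset.notMem_empty v)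

theorem Star_GG_nonneg (h : ℕ) (N Q : ℕ → ℕ) (σ s : ℕ) : 0 ≤ GG h N Q σ s := by
  unfold GG
  split_ifs <;> positivity

/-- the weight at `σ, s` -/
def Star_F (h : ℕ) (N Q : ℕ → ℕ) (σ s : ℕ) : ℝ :=
  if s ≤ σ + 4 * h then (if σ ≤ s + h then GG h N Q σ s else 1) else 0

theorem Star_F_nonneg (h : ℕ) (N Q : ℕ → ℕ) (σ s : ℕ) : 0 ≤ Star_F h N Q σ s := by
  unfold Star_F
  split_ifs
  · exact Star_GG_nonneg _ _ _ _ _
  · exact zero_le_one
  · exact le_rfl

theorem Star_NA_indep (EE : Finset (Finset V)) (c : Bool) (A : Finset V) {ω ω' : Cfg V n}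
    (h : ∀ v, v ∉ A → ω v = ω' v) : NA EE c A ω = NA EE c A ω' := by
  funext t
  unfold NA
  congr 1
  apply Finset.filter_congr
  intro A' _
  apply forall₂_congr
  intro v hv
  have hvA : v ∉ A := (Finset.mem_sdiff.1 hv).2
  unfold col lev
  rw [h v hvA]

theorem Star_QA_indep (EE : Finset (Finset V)) (c : Bool) (A : Finset V) (w : V)
    {ω ω' : Cfg V n} (h : ∀ v, v ∉ A → ω v = ω' v) : QA EE c A w ω = QA EE c A w ω' := by
  funext t
  unfold QA
  congr 1
  apply Finset.filter_congr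
  intro A' _
  apply and_congr_right'
  apply forall₂_congr
  intro v hv
  have hvA : v ∉ A := (Finset.mem_sdiff.1 hv).2
  unfold col lev
  rw [h v hvA]

/-- the pointwise bound for one triple `s, A, w` -/
theorem Star_pt (EE : Finset (Finset V)) (ix : V → ℕ) (hix : Function.Injective ix) (h M : ℕ)
    (h1 : 1 ≤ h) (c : Bool) (u : V) (hu : ∀ A ∈ EE, u ∉ A) (hne : ∀ A ∈ EE, A.Nonempty)
    (A : Finset V) (hA : A ∈ EE) (w : V) (s : ℕ) (ω : Cfg V n) :
    (if RelAt ix (4 * h) c ω A w s then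
      Real.exp ((((MM EE ix (4 * h) M c u ω).filter (fun j => j < s)).card : ℕ) : ℝ) /
        (SS EE ix (4 * h) c s ω : ℝ) else 0) ≤
    ∑ σ ∈ range n, (if RelAt ix (4 * h) c ω A w s ∧ lev ω w = σ then
      Real.exp (s : ℝ) * Star_F h (NA EE c A ω) (QA EE c A w ω) σ s else 0) := by
  by_cases hrel : RelAt ix (4 * h) c ω A w s
  · rw [if_pos hrel]
    have hlt : lev ω w < n := (ω w).2.2
    rw [Finset.sum_eq_single_of_mem (lev ω w) (Finset.mem_range.2 hlt) (fun σ _ hσ => by
      rw [if_neg]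
      rintro ⟨_, h0⟩
      exact hσ h0.symm), if_pos ⟨hrel, rfl⟩]
    have hs4 : s ≤ lev ω w + 4 * h := hrel.2.2.2
    unfold Star_F
    rw [if_pos hs4]
    by_cases hs : lev ω w ≤ s + h
    · rw [if_pos hs]
      exact calm EE ix hix h M h1 c u hu hne A hA w s ω hrel hs
    · rw [if_neg hs, mul_one]
      have hS : (1 : ℝ) ≤ (SS EE ix (4 * h) c s ω : ℝ) := by
        have : 1 ≤ SS EE ix (4 * h) c s ω := by
          unfold SS
          exact Finset.card_pos.2 ⟨A, Finset.mem_filter.2 ⟨hA, w, hrel⟩⟩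
        exact_mod_cast this
      have hcard : ((((MM EE ix (4 * h) M c u ω).filter (fun j => j < s)).card : ℕ) : ℝ) ≤
          (s : ℝ) := by
        have : ((MM EE ix (4 * h) M c u ω).filter (fun j => j < s)).card ≤ s := by
          calc _ ≤ (range s).card := by
                apply Finset.card_le_card
                intro j hj
                exact Finset.mem_range.2 (Finset.mem_filter.1 hj).2
            _ = s := Finset.card_range s
        exact_mod_cast this
      calc _ ≤ Real.exp ((((MM EE ix (4 * h) M c u ω).filter (fun j => j < s)).card : ℕ) : ℝ) :=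
            div_le_self (Real.exp_pos _).le hS
        _ ≤ Real.exp (s : ℝ) := Real.exp_le_exp.2 hcard
  · rw [if_neg hrel]
    apply Finset.sum_nonneg
    intro σ _
    split_ifs
    · exact mul_nonneg (Real.exp_pos _).le (Star_F_nonneg _ _ _ _ _)
    · exact le_rfl

theorem Star_TT (h M n : ℕ) (N Q : ℕ → ℕ) :
    ∑ s ∈ range M, ∑ σ ∈ range n, Real.exp (-((σ - s : ℕ) : ℝ)) * Star_F h N Q σ s =
      TT h M n N Q := by
  unfold TT Star_F
  apply Finset.sum_congr rfl
  intro s _
  apply Finset.sum_congr rfl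
  intro σ _
  split_ifs <;> simp

/-- the bound for one pair `A, w` -/
theorem Star_Aw (EE : Finset (Finset V)) (hEE : ∀ A' ∈ EE, A'.card + 1 = n) (ix : V → ℕ)
    (hix : Function.Injective ix) (h M : ℕ) (h1 : 1 ≤ h) (hM : M + h ≤ n) (c : Bool) (u : V)
    (hu : ∀ A ∈ EE, u ∉ A) (hn : 2 ≤ n) (A : Finset V) (hA : A ∈ EE) (w : V) (hw : w ∈ A) :
    ∑ s ∈ range M, Ex (fun ω : Cfg V n => if RelAt ix (4 * h) c ω A w s then
      Real.exp ((((MM EE ix (4 * h) M c u ω).filter (fun j => j < s)).card : ℕ) : ℝ) /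
        (SS EE ix (4 * h) c s ω : ℝ) else 0) ≤
    (15 / (n : ℝ)) * (1 / 2 ^ n) *
      Ex (fun ω : Cfg V n => TT h M n (NA EE c A ω) (QA EE c A w ω)) := by
  have hne : ∀ A ∈ EE, A.Nonempty := by
    intro A' hA'
    apply Finset.card_pos.1
    have := hEE A' hA'
    omega
  have hstep : ∀ s ∈ range M, Ex (fun ω : Cfg V n => if RelAt ix (4 * h) c ω A w s then
      Real.exp ((((MM EE ix (4 * h) M c u ω).filter (fun j => j < s)).card : ℕ) : ℝ) /
        (SS EE ix (4 * h) c s ω : ℝ) else 0) ≤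
      ∑ σ ∈ range n, (15 / (n : ℝ)) * (1 / 2 ^ n) * Real.exp (-((σ - s : ℕ) : ℝ)) *
        Ex (fun ω : Cfg V n => Star_F h (NA EE c A ω) (QA EE c A w ω) σ s) := by
    intro s hs
    have hsn : s ≤ n := by
      have := Finset.mem_range.1 hs
      omega
    refine (Ex_mono fun ω => Star_pt EE ix hix h M h1 c u hu hne A hA w s ω).trans ?_
    rw [Ex_sum]
    apply Finset.sum_le_sum
    intro σ _
    refine Ex_RelAt hn ix (4 * h) c A (hEE A hA) w hw s σ hsn
      (fun ω => Star_F h (NA EE c A ω) (QA EE c A w ω) σ s)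
      (fun ω => Star_F_nonneg _ _ _ _ _) ?_
    intro ω ω' hω
    simp only [Star_NA_indep EE c A hω, Star_QA_indep EE c A w hω]
  refine (Finset.sum_le_sum hstep).trans (le_of_eq ?_)
  have e1 : ∀ ω : Cfg V n, TT h M n (NA EE c A ω) (QA EE c A w ω) =
      ∑ s ∈ range M, ∑ σ ∈ range n, Real.exp (-((σ - s : ℕ) : ℝ)) *
        Star_F h (NA EE c A ω) (QA EE c A w ω) σ s := fun ω => (Star_TT _ _ _ _ _).symm
  simp only [e1]
  rw [Ex_sum, Finset.mul_sum]
  apply Finset.sum_congr rfl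
  intro s _
  rw [Ex_sum, Finset.mul_sum]
  apply Finset.sum_congr rfl
  intro σ _
  rw [Ex_const_mul]
  ring

theorem star (EE : Finset (Finset V)) (hEE : ∀ A' ∈ EE, A'.card + 1 = n) (ix : V → ℕ)
    (hix : Function.Injective ix) (h M : ℕ) (h1 : 1 ≤ h) (hM : M + h ≤ n) (c : Bool) (u : V)
    (hu : ∀ A ∈ EE, u ∉ A) (hn : 2 ≤ n) :
    Ex (fun ω : Cfg V n => Real.exp ((MM EE ix (4 * h) M c u ω).card : ℝ)) - 1 ≤
      30 * (EE.card : ℝ) * (1 / 2 ^ n) * JJ h M := by
  have hn0 : 0 < n := by omega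
  have hnR : (0 : ℝ) < n := by exact_mod_cast hn0
  have hJA : ∀ A ∈ EE, ∑ w ∈ A, (15 / (n : ℝ)) * (1 / 2 ^ n) *
      Ex (fun ω : Cfg V n => TT h M n (NA EE c A ω) (QA EE c A w ω)) ≤
      15 * (1 / 2 ^ n) * JJ h M := by
    intro A hA
    set a0 : ℝ := (M : ℝ) * Real.exp (-(h : ℝ)) + 2 * h * (2 + 4 * h) +
      ((M : ℝ) + h) * (2 + 4 * h) * Real.exp (-((h / 2 : ℕ) : ℝ)) +
      5 * (1 + 20 * h * (1 + Real.log ((M + h : ℕ) : ℝ))) with ha0
    have hpt : ∀ (w : V) (ω : Cfg V n), TT h M n (NA EE c A ω) (QA EE c A w ω) ≤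
        a0 + (2 + 4 * h) * QS h (M + h) (NA EE c A ω) (QA EE c A w ω) := by
      intro w ω
      have t1 := TT_le h M n h1 (NA EE c A ω) (QA EE c A w ω) (NA_antitone EE c A ω)
        (one_le_NA EE c A hA ω)
      have t2 := DropS_le h (M + h) (by omega) (NA EE c A ω) (NA_antitone EE c A ω)
        (one_le_NA EE c A hA ω)
      rw [ha0]
      linarith
    have hlog : 0 ≤ Real.log ((M + h : ℕ) : ℝ) := Real.log_natCast_nonneg _
    have ha0n : 0 ≤ a0 := by rw [ha0]; positivity
    have hsum : ∑ w ∈ A, Ex (fun ω : Cfg V n => TT h M n (NA EE c A ω) (QA EE c A w ω)) ≤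
        n * JJ h M := by
      calc ∑ w ∈ A, Ex (fun ω : Cfg V n => TT h M n (NA EE c A ω) (QA EE c A w ω)) ≤
          ∑ w ∈ A, Ex (fun ω : Cfg V n =>
            a0 + (2 + 4 * h) * QS h (M + h) (NA EE c A ω) (QA EE c A w ω)) :=
            Finset.sum_le_sum fun w _ => Ex_mono fun ω => hpt w ω
        _ = ∑ w ∈ A, (a0 + (2 + 4 * h) *
            Ex (fun ω : Cfg V n => QS h (M + h) (NA EE c A ω) (QA EE c A w ω))) := by
            apply Finset.sum_congr rfl
            intro w _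
            rw [Ex_add, Ex_const hn0, Ex_const_mul]
        _ = A.card * a0 + (2 + 4 * h) *
            Ex (fun ω : Cfg V n => ∑ w ∈ A, QS h (M + h) (NA EE c A ω) (QA EE c A w ω)) := by
            rw [Finset.sum_add_distrib, Finset.sum_const, nsmul_eq_mul, ← Finset.mul_sum, Ex_sum]
        _ ≤ n * a0 + (2 + 4 * h) * (n * (20 * h + 6 + 4 * Real.log ((M + h : ℕ) : ℝ))) := by
            have t3 := Ex_QS EE hEE c A hA h (M + h) h1 (by omega) hM
            have t4 : (A.card : ℝ) ≤ n := by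
              have := hEE A hA
              exact_mod_cast (by omega : A.card ≤ n)
            gcongr
        _ = n * JJ h M := by
            rw [ha0]
            unfold JJ
            push_cast
            ring
    rw [← Finset.mul_sum]
    calc 15 / (n : ℝ) * (1 / 2 ^ n) *
          ∑ w ∈ A, Ex (fun ω : Cfg V n => TT h M n (NA EE c A ω) (QA EE c A w ω)) ≤
        15 / (n : ℝ) * (1 / 2 ^ n) * (n * JJ h M) := by gcongr
      _ = 15 * (1 / 2 ^ n) * JJ h M := by
        field_simp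
  calc Ex (fun ω : Cfg V n => Real.exp ((MM EE ix (4 * h) M c u ω).card : ℝ)) - 1 =
      Ex (fun ω : Cfg V n => Real.exp ((MM EE ix (4 * h) M c u ω).card : ℝ) + (-1)) := by
        rw [Ex_add, Ex_const hn0]
        ring
    _ ≤ Ex (fun ω : Cfg V n => 2 * ∑ s ∈ range M, ∑ A ∈ EE, ∑ w ∈ A,
        (if RelAt ix (4 * h) c ω A w s then
          Real.exp ((((MM EE ix (4 * h) M c u ω).filter (fun j => j < s)).card : ℕ) : ℝ) /
            (SS EE ix (4 * h) c s ω : ℝ) else 0)) := by
        apply Ex_mono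
        intro ω
        have := tele EE ix hix (4 * h) M c u ω
        linarith
    _ = 2 * ∑ A ∈ EE, ∑ w ∈ A, ∑ s ∈ range M, Ex (fun ω : Cfg V n =>
        if RelAt ix (4 * h) c ω A w s then
          Real.exp ((((MM EE ix (4 * h) M c u ω).filter (fun j => j < s)).card : ℕ) : ℝ) /
            (SS EE ix (4 * h) c s ω : ℝ) else 0) := by
        rw [Ex_const_mul, Ex_sum]
        congr 1
        simp only [Ex_sum]
        rw [Finset.sum_comm]
        apply Finset.sum_congr rfl
        intro A _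
        rw [Finset.sum_comm]
    _ ≤ 2 * ∑ A ∈ EE, (15 * (1 / 2 ^ n) * JJ h M) := by
        gcongr with A hA
        refine (Finset.sum_le_sum fun w hw => ?_).trans (hJA A hA)
        exact Star_Aw EE hEE ix hix h M h1 hM c u hu hn A hA w hw
    _ = 30 * (EE.card : ℝ) * (1 / 2 ^ n) * JJ h M := by
        rw [Finset.sum_const, nsmul_eq_mul]
        ring

end

end PropB2
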