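import Pool.Agent.H66.PB2.Det
import Pool.Agent.H66.PB2.PI
import Pool.Agent.H66.PB2.Star
import Pool.Agent.H7.PB.PE

/-! Module Fin: the finite theorem, by the union bound. -/

namespace PropB2

noncomputable section

open Finset Classical PropB

variable {V : Type*} [Fintype V] [DecidableEq V] {n : ℕ}

/-- union bound over the two colours -/
theorem Fin_bool (p : Bool → Cfg V n → Prop) (a : ℝ)
    (h : ∀ c, Pr (fun ω : Cfg V n => p c ω) ≤ a) :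
    Pr (fun ω : Cfg V n => ∃ c, p c ω) ≤ 2 * a := by
  have h1 : Pr (fun ω : Cfg V n => ∃ c, p c ω) ≤
      Pr (fun ω : Cfg V n => p true ω ∨ p false ω) := by
    apply Pr_mono
    rintro ω ⟨c, hc⟩
    cases c
    · exact Or.inr hc
    · exact Or.inl hc
  have h2 := Pr_or_le (fun ω : Cfg V n => p true ω) (fun ω => p false ω)
  have h3 := h true
  have h4 := h false
  linarith

theorem JJ_nonneg (h M : ℕ) (h1 : 1 ≤ h) : 0 ≤ JJ h M := by
  have hl : 0 ≤ Real.log ((M : ℝ) + h) := by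
    apply Real.log_nonneg
    have e1 : (1 : ℝ) ≤ h := by exact_mod_cast h1
    have e2 : (0 : ℝ) ≤ M := Nat.cast_nonneg M
    linarith
  have e0 : (0 : ℝ) ≤ h := Nat.cast_nonneg h
  have e2 : (0 : ℝ) ≤ M := Nat.cast_nonneg M
  unfold JJ
  positivity

theorem fam_card (hn : 2 ≤ n) (H : Finset (Finset V)) (hH : ∀ A ∈ H, A.card = n) (B : Finset V)
    (u : V) : ∀ A' ∈ fam H B u, A'.card + 1 = n ∧ u ∉ A' := by
  intro A' hA'
  unfold fam at hA'
  rw [mem_image] at hA'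
  obtain ⟨A, hA, rfl⟩ := hA'
  rw [mem_filter] at hA
  have hu : u ∈ A := by
    have : u ∈ A ∩ B := by rw [hA.2]; exact mem_singleton_self u
    exact (mem_inter.mp this).1
  refine ⟨?_, notMem_erase u A⟩
  rw [card_erase_of_mem hu, hH A hA.1]
  omega

theorem Pr_EvI_le (hn : 2 ≤ n) (H : Finset (Finset V)) (hH : ∀ A ∈ H, A.card = n) (ix : V → ℕ)
    (hix : Function.Injective ix) (h M : ℕ) (h1 : 1 ≤ h) (hM : M + h ≤ n) (c : Bool)
    (B : Finset V) (hB : B.card = n) :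
    Pr (fun ω : Cfg V n => EvI H ix (4 * h) M c B ω) ≤
      (1 / 2 ^ n) * ((1 / (n : ℝ)) * (30 * (H.card : ℝ) * (1 / 2 ^ n) * JJ h M)) := by
  refine (Pr_EvI hn H hH ix hix (4 * h) M c B hB).trans ?_
  have hJ := JJ_nonneg h M h1
  have hs : ∑ u ∈ B, (Ex (fun ω : Cfg V n =>
      Real.exp ((MM (fam H B u) ix (4 * h) M c u ω).card : ℝ)) - 1) ≤
      30 * (H.card : ℝ) * (1 / 2 ^ n) * JJ h M := by
    calc ∑ u ∈ B, (Ex (fun ω : Cfg V n =>
        Real.exp ((MM (fam H B u) ix (4 * h) M c u ω).card : ℝ)) - 1)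
        ≤ ∑ u ∈ B, 30 * ((fam H B u).card : ℝ) * (1 / 2 ^ n) * JJ h M := by
          apply sum_le_sum
          intro u _
          exact star (fam H B u) (fun A' hA' => (fam_card hn H hH B u A' hA').1) ix hix h M h1 hM c
            u (fun A' hA' => (fam_card hn H hH B u A' hA').2) hn
      _ = 30 * (∑ u ∈ B, ((fam H B u).card : ℝ)) * (1 / 2 ^ n) * JJ h M := by
          rw [mul_sum, sum_mul, sum_mul]
      _ ≤ 30 * (H.card : ℝ) * (1 / 2 ^ n) * JJ h M := by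
          have hc : (∑ u ∈ B, ((fam H B u).card : ℝ)) ≤ (H.card : ℝ) := by
            have := sum_card_fam H B
            exact_mod_cast this
          gcongr
  gcongr

theorem finite_main (hn : 2 ≤ n) (H : Finset (Finset V)) (hH : ∀ A ∈ H, A.card = n)
    (T h : ℕ) (h1 : 1 ≤ h) (hM : 2 * (T + 4 * h) ≤ n) (β : ℝ) (hβ : (H.card : ℝ) / 2 ^ n ≤ β)
    (hlt : 2 * β * Real.exp (-(T : ℝ)) +
      8 * β ^ 2 * ((T + 4 * h : ℕ) : ℝ) ^ 2 * Real.exp ((T + 4 * h : ℕ) : ℝ) / (n : ℝ) ^ 2 +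
      60 * β ^ 2 * JJ h (T + 4 * h) / (n : ℝ) < 1) :
    HasPropertyB H := by
  have hn0 : 0 < n := by omega
  have hb0 : 0 ≤ (H.card : ℝ) / 2 ^ n := by positivity
  have hβ0 : 0 ≤ β := hb0.trans hβ
  have hsq : ((H.card : ℝ) / 2 ^ n) ^ 2 ≤ β ^ 2 := pow_le_pow_left₀ hb0 hβ 2
  have hn' : (0 : ℝ) < n := by exact_mod_cast hn0
  obtain ⟨ix, hix⟩ : ∃ ix : V → ℕ, Function.Injective ix :=
    ⟨fun v => (Fintype.equivFin V v : ℕ), fun v w hvw =>
      (Fintype.equivFin V).injective (Fin.ext hvw)⟩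
  have hJ := JJ_nonneg h (T + 4 * h) h1
  have b1 : Pr (fun ω : Cfg V n => E1 H T ω) ≤ 2 * β * Real.exp (-(T : ℝ)) := by
    refine (Pr_E1 hn0 H hH T).trans ?_
    gcongr
  have b2 : Pr (fun ω : Cfg V n => E2 H (T + 4 * h) ω) ≤
      8 * β ^ 2 * ((T + 4 * h : ℕ) : ℝ) ^ 2 * Real.exp ((T + 4 * h : ℕ) : ℝ) / (n : ℝ) ^ 2 := by
    refine (Pr_E2 hn0 H hH (T + 4 * h) hM).trans ?_
    gcongr
  have b3 : Pr (fun ω : Cfg V n => ∃ c, ∃ B ∈ H, EvI H ix (4 * h) (T + 4 * h) c B ω) ≤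
      60 * β ^ 2 * JJ h (T + 4 * h) / (n : ℝ) := by
    have e1 : ∀ c : Bool, Pr (fun ω : Cfg V n => ∃ B ∈ H, EvI H ix (4 * h) (T + 4 * h) c B ω) ≤
        30 * β ^ 2 * JJ h (T + 4 * h) / (n : ℝ) := by
      intro c
      refine (Pr_exists_mem_le_card H (fun B ω => EvI H ix (4 * h) (T + 4 * h) c B ω) _
        (fun B hB => Pr_EvI_le hn H hH ix hix h (T + 4 * h) h1 (by omega) c B (hH B hB))).trans ?_
      calc (H.card : ℝ) * ((1 / 2 ^ n) * ((1 / (n : ℝ)) *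
            (30 * (H.card : ℝ) * (1 / 2 ^ n) * JJ h (T + 4 * h))))
          = 30 * ((H.card : ℝ) / 2 ^ n) ^ 2 * JJ h (T + 4 * h) / (n : ℝ) := by
            field_simp
        _ ≤ 30 * β ^ 2 * JJ h (T + 4 * h) / (n : ℝ) := by gcongr
    refine (Fin_bool (fun c ω => ∃ B ∈ H, EvI H ix (4 * h) (T + 4 * h) c B ω) _ e1).trans
      (le_of_eq ?_)
    ring
  have u : Pr (fun ω : Cfg V n => (E1 H T ω ∨ E2 H (T + 4 * h) ω) ∨
      ∃ c, ∃ B ∈ H, EvI H ix (4 * h) (T + 4 * h) c B ω) < 1 := by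
    have c1 := Pr_or_le (fun ω : Cfg V n => E1 H T ω ∨ E2 H (T + 4 * h) ω)
      (fun ω => ∃ c, ∃ B ∈ H, EvI H ix (4 * h) (T + 4 * h) c B ω)
    have c2 := Pr_or_le (fun ω : Cfg V n => E1 H T ω) (fun ω => E2 H (T + 4 * h) ω)
    linarith
  obtain ⟨ω, hω⟩ := exists_not_of_Pr_lt_one hn0 u
  simp only [not_or, not_exists] at hω
  obtain ⟨⟨h2, h3⟩, h4⟩ := hω
  exact det_lemma H ix hix T (4 * h) hH hn ω h2 h3 (fun c B hB hE => h4 c B ⟨hB, hE⟩)

end

end PropB2
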