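import Pool.Agent.H66.PB2.Defs

/-! Module Par: choice of the parameters. -/

namespace PropB2

noncomputable section

open Finset Classical PropB

open Filter Topology in
theorem Par_ev (s t c : ℝ) (ht : 0 < t) (hc : 0 < c) :
    ∀ᶠ x : ℝ in atTop, c * (Real.log x) ^ s ≤ x ^ t := by
  have h := (isLittleO_log_rpow_rpow_atTop s ht).def (c := 1 / c) (by positivity)
  filter_upwards [h, eventually_ge_atTop (1 : ℝ)] with x hx h1
  have h2 : 0 ≤ Real.log x ^ s := Real.rpow_nonneg (Real.log_nonneg h1) _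
  have h3 : 0 ≤ x ^ t := Real.rpow_nonneg (by linarith) _
  rw [Real.norm_of_nonneg h2, Real.norm_of_nonneg h3] at hx
  calc c * (Real.log x) ^ s ≤ c * (1 / c * x ^ t) := mul_le_mul_of_nonneg_left hx hc.le
    _ = x ^ t := by field_simp

/-- the loss factor is `O(l^2)` -/
theorem Par_JJ (T h : ℕ) (L l : ℝ) (hl : l = Real.log L) (h1l : 1 ≤ l)
    (hLT : L ≤ 2 * T) (hT3 : (3 : ℝ) ≤ T) (hh1 : 8 * Real.log T ≤ (h : ℝ)) (hh9 : (h : ℝ) ≤ 9 * l)
    (hML : (T : ℝ) + 5 * h ≤ L) :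
    JJ h (T + 4 * h) ≤ 10000 * l ^ 2 := by
  have hT0 : (0 : ℝ) < T := by linarith
  have hh0 : (0 : ℝ) ≤ h := by positivity
  have hexpT : Real.exp (8 * Real.log T) = (T : ℝ) ^ 8 := by
    rw [show (8 : ℝ) * Real.log T = ((8 : ℕ) : ℝ) * Real.log T by norm_num, Real.exp_nat_mul,
      Real.exp_log hT0]
  have hexpT4 : Real.exp (4 * Real.log T) = (T : ℝ) ^ 4 := by
    rw [show (4 : ℝ) * Real.log T = ((4 : ℕ) : ℝ) * Real.log T by norm_num, Real.exp_nat_mul,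
      Real.exp_log hT0]
  have e1 : Real.exp (-(h : ℝ)) ≤ 1 / (T : ℝ) ^ 8 := by
    rw [← hexpT, one_div, ← Real.exp_neg]
    exact Real.exp_le_exp.2 (by linarith)
  have hh2 : ((h : ℝ) - 1) / 2 ≤ ((h / 2 : ℕ) : ℝ) := by
    have : h ≤ 2 * (h / 2) + 1 := by omega
    have h2 : (h : ℝ) ≤ 2 * ((h / 2 : ℕ) : ℝ) + 1 := by exact_mod_cast this
    linarith
  have ehalf : Real.exp (1 / 2) ≤ 2 := by
    have h3 : Real.exp (1 / 2) ^ 2 = Real.exp 1 := by
      rw [← Real.exp_nat_mul]; norm_num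
    have h4 : Real.exp 1 < 2.7182818286 := Real.exp_one_lt_d9
    have h5 : 0 < Real.exp (1 / 2) := Real.exp_pos _
    nlinarith
  have e2 : Real.exp (-((h / 2 : ℕ) : ℝ)) ≤ 2 / (T : ℝ) ^ 4 := by
    calc Real.exp (-((h / 2 : ℕ) : ℝ)) ≤ Real.exp (1 / 2 + -(4 * Real.log T)) :=
          Real.exp_le_exp.2 (by linarith)
      _ = Real.exp (1 / 2) * (1 / (T : ℝ) ^ 4) := by
          rw [Real.exp_add, Real.exp_neg, hexpT4]
          rw [one_div ((T : ℝ) ^ 4)]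
      _ ≤ 2 * (1 / (T : ℝ) ^ 4) := mul_le_mul_of_nonneg_right ehalf (by positivity)
      _ = 2 / (T : ℝ) ^ 4 := by ring
  have hMr : (((T + 4 * h : ℕ)) : ℝ) = T + 4 * h := by push_cast; ring
  have hL0 : 0 < L := by linarith
  have hMh : 0 < (T : ℝ) + 4 * h + h := by linarith
  have hlog : Real.log ((T : ℝ) + 4 * h + h) ≤ l := by
    rw [hl]
    exact Real.log_le_log hMh (by linarith)
  have hT2 : (9 : ℝ) ≤ (T : ℝ) ^ 2 := by nlinarith
  have t1 : ((T : ℝ) + 4 * h) * Real.exp (-(h : ℝ)) ≤ 1 := by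
    calc ((T : ℝ) + 4 * h) * Real.exp (-(h : ℝ)) ≤ (2 * T) * (1 / (T : ℝ) ^ 8) := by
          apply mul_le_mul (by linarith) e1 (Real.exp_pos _).le (by positivity)
      _ = 2 / (T : ℝ) ^ 7 := by field_simp
      _ ≤ 1 := by
          rw [div_le_one (by positivity)]
          have : (T : ℝ) ^ 1 ≤ (T : ℝ) ^ 7 := pow_le_pow_right₀ (by linarith) (by norm_num)
          rw [pow_one] at this
          linarith
  have t2 : ((T : ℝ) + 4 * h + h) * (2 + 4 * h) * Real.exp (-((h / 2 : ℕ) : ℝ)) ≤ 1 := by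
    calc ((T : ℝ) + 4 * h + h) * (2 + 4 * h) * Real.exp (-((h / 2 : ℕ) : ℝ)) ≤
          (2 * T) * (2 * T) * (2 / (T : ℝ) ^ 4) := by
          apply mul_le_mul _ e2 (Real.exp_pos _).le (by positivity)
          apply mul_le_mul (by linarith) (by linarith) (by positivity) (by positivity)
      _ = 8 / (T : ℝ) ^ 2 := by field_simp; ring
      _ ≤ 1 := by
          rw [div_le_one (by positivity)]
          linarith
  have hl2 : l ≤ l ^ 2 := by nlinarith
  have h1l2 : 1 ≤ l ^ 2 := by nlinarith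
  have a38 : 2 + 4 * (h : ℝ) ≤ 38 * l := by linarith
  have t3 : 2 * (h : ℝ) * (2 + 4 * h) ≤ 684 * l ^ 2 := by
    calc 2 * (h : ℝ) * (2 + 4 * h) ≤ 2 * (9 * l) * (38 * l) := by
          apply mul_le_mul (by linarith) a38 (by positivity) (by positivity)
      _ = 684 * l ^ 2 := by ring
  have t4 : 5 * (1 + 20 * (h : ℝ) * (1 + Real.log ((T : ℝ) + 4 * h + h))) ≤ 1805 * l ^ 2 := by
    have h3 : 20 * (h : ℝ) * (1 + Real.log ((T : ℝ) + 4 * h + h)) ≤ 20 * (9 * l) * (2 * l) := by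
      apply mul_le_mul (by linarith) (by linarith) _ (by positivity)
      have : 0 ≤ Real.log ((T : ℝ) + 4 * h + h) := Real.log_nonneg (by linarith)
      linarith
    nlinarith
  have t5 : (2 + 4 * (h : ℝ)) * (20 * h + 6 + 4 * Real.log ((T : ℝ) + 4 * h + h)) ≤
      7220 * l ^ 2 := by
    have h4 : 0 ≤ Real.log ((T : ℝ) + 4 * h + h) := Real.log_nonneg (by linarith)
    calc (2 + 4 * (h : ℝ)) * (20 * h + 6 + 4 * Real.log ((T : ℝ) + 4 * h + h)) ≤
          (38 * l) * (190 * l) := by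
          apply mul_le_mul a38 (by linarith) (by positivity) (by positivity)
      _ = 7220 * l ^ 2 := by ring
  unfold JJ
  rw [hMr]
  linarith

theorem Par_det (n : ℕ) (hn : 0 < n) (L l : ℝ) (hL : L = Real.log n) (hl : l = Real.log L)
    (F1 : 1 ≤ l) (F2 : 360 * l ≤ L) (F3 : 2 * L ≤ n)
    (F4 : 32 * Real.exp 5 * L ^ 34 ≤ Real.exp (L / 4)) (β : ℝ) (h0 : 0 ≤ β)
    (hβ : β ≤ 1 / 2000 * Real.sqrt n / l) :
    ∃ (T h : ℕ), 2 ≤ n ∧ 1 ≤ h ∧ 2 * (T + 4 * h) ≤ n ∧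
      2 * β * Real.exp (-(T : ℝ)) +
      8 * β ^ 2 * ((T + 4 * h : ℕ) : ℝ) ^ 2 * Real.exp ((T + 4 * h : ℕ) : ℝ) / (n : ℝ) ^ 2 +
      60 * β ^ 2 * JJ h (T + 4 * h) / (n : ℝ) < 1 := by
  have hN : (0 : ℝ) < n := by exact_mod_cast hn
  have hL0 : 360 ≤ L := by linarith
  have hLpos : 0 < L := by linarith
  have hexpl : Real.exp l = L := by rw [hl, Real.exp_log hLpos]
  have hexpL : Real.exp L = n := by rw [hL, Real.exp_log hN]
  set sN : ℝ := Real.sqrt n with hsN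
  have hsN2 : sN ^ 2 = n := Real.sq_sqrt hN.le
  have hsN0 : 0 < sN := Real.sqrt_pos.2 hN
  have hexpL2 : Real.exp (L / 2) = sN := by
    rw [hsN, ← hexpL]
    rw [show Real.exp L = Real.exp (L / 2) ^ 2 by rw [← Real.exp_nat_mul]; congr 1; push_cast; ring]
    rw [Real.sqrt_sq (Real.exp_pos _).le]
  have he3 : (8 : ℝ) ≤ Real.exp 3 := by
    have he1 : (2 : ℝ) ≤ Real.exp 1 := by
      have := Real.add_one_le_exp (1 : ℝ)
      linarith
    have h : Real.exp 3 = Real.exp 1 ^ 3 := by rw [← Real.exp_nat_mul]; norm_num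
    rw [h]
    calc (8 : ℝ) = 2 ^ 3 := by norm_num
      _ ≤ Real.exp 1 ^ 3 := pow_le_pow_left₀ (by norm_num) he1 3
  set T : ℕ := ⌈3 / 4 * L⌉₊ with hT
  have hTa : 3 / 4 * L ≤ (T : ℝ) := Nat.le_ceil _
  have hTb : (T : ℝ) ≤ 3 / 4 * L + 1 := (Nat.ceil_lt_add_one (by positivity)).le
  have hT0 : (0 : ℝ) < T := by linarith
  have hTL : (T : ℝ) ≤ L := by linarith
  have hlogT : Real.log T ≤ l := by
    rw [hl]
    exact Real.log_le_log hT0 hTL
  have hlogT1 : 1 ≤ Real.log T := by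
    have h3 : Real.exp 1 ≤ T := by
      have := Real.exp_one_lt_d9
      linarith
    exact (Real.le_log_iff_exp_le hT0).2 h3
  set h : ℕ := ⌈8 * Real.log T⌉₊ with hh
  have hha : 8 * Real.log T ≤ (h : ℝ) := Nat.le_ceil _
  have hhb : (h : ℝ) ≤ 8 * Real.log T + 1 := (Nat.ceil_lt_add_one (by positivity)).le
  have hh9 : (h : ℝ) ≤ 9 * l := by linarith
  have hJ := Par_JJ T h L l hl F1 (by linarith) (by linarith) hha hh9 (by linarith)
  have hβ1 : β ≤ sN * (1 / (2000 * l)) := by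
    calc β ≤ 1 / 2000 * sN / l := hβ
      _ = sN * (1 / (2000 * l)) := by field_simp
  have hc1 : 1 / (2000 * l) ≤ 1 := by
    rw [div_le_one (by positivity)]
    linarith
  have hc0 : 0 < 1 / (2000 * l) := by positivity
  have hβ3 : β ≤ sN := by
    calc β ≤ sN * (1 / (2000 * l)) := hβ1
      _ ≤ sN * 1 := mul_le_mul_of_nonneg_left hc1 hsN0.le
      _ = sN := mul_one _
  have hβ2 : β ^ 2 ≤ n * (1 / (2000 * l)) ^ 2 := by
    calc β ^ 2 ≤ (sN * (1 / (2000 * l))) ^ 2 := pow_le_pow_left₀ h0 hβ1 2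
      _ = n * (1 / (2000 * l)) ^ 2 := by rw [mul_pow, hsN2]
  have hβN : β ^ 2 ≤ n := by
    calc β ^ 2 ≤ sN ^ 2 := pow_le_pow_left₀ h0 hβ3 2
      _ = n := hsN2
  have hMr : (((T + 4 * h : ℕ)) : ℝ) = T + 4 * h := by push_cast; ring
  have hML : ((T + 4 * h : ℕ) : ℝ) ≤ L := by rw [hMr]; linarith
  refine ⟨T, h, ?_, ?_, ?_, ?_⟩
  · have : (2 : ℝ) ≤ n := by linarith
    exact_mod_cast this
  · have : (1 : ℝ) ≤ h := by linarith
    exact_mod_cast this
  · have : 2 * (((T + 4 * h : ℕ)) : ℝ) ≤ n := by linarith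
    exact_mod_cast this
  · have ea : 2 * β * Real.exp (-(T : ℝ)) ≤ 1 / 4 := by
      have h1 : Real.exp (-(T : ℝ)) ≤ Real.exp (-(L / 2 + 3)) := Real.exp_le_exp.2 (by linarith)
      have h2 : Real.exp (-(L / 2 + 3)) = 1 / (sN * Real.exp 3) := by
        rw [Real.exp_neg, Real.exp_add, hexpL2, one_div]
      have h3 : Real.exp (-(T : ℝ)) ≤ 1 / (sN * 8) := by
        rw [h2] at h1
        refine h1.trans (one_div_le_one_div_of_le (by positivity) ?_)
        exact mul_le_mul_of_nonneg_left he3 hsN0.le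
      calc 2 * β * Real.exp (-(T : ℝ)) ≤ 2 * sN * (1 / (sN * 8)) := by gcongr
        _ = 1 / 4 := by field_simp; norm_num
    have eb : 8 * β ^ 2 * ((T + 4 * h : ℕ) : ℝ) ^ 2 * Real.exp ((T + 4 * h : ℕ) : ℝ) /
        (n : ℝ) ^ 2 ≤ 1 / 4 := by
      rw [div_le_iff₀ (by positivity)]
      have hexp32 : Real.exp (32 * l) = L ^ 32 := by
        rw [← hexpl, ← Real.exp_nat_mul]
        norm_num
      have h1 : Real.exp ((T + 4 * h : ℕ) : ℝ) ≤ Real.exp (3 / 4 * L) * L ^ 32 * Real.exp 5 := by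
        rw [hMr]
        calc Real.exp ((T : ℝ) + 4 * h) ≤ Real.exp (3 / 4 * L + 32 * l + 5) :=
              Real.exp_le_exp.2 (by linarith)
          _ = Real.exp (3 / 4 * L) * L ^ 32 * Real.exp 5 := by
              rw [Real.exp_add, Real.exp_add, hexp32]
      have hsq : ((T + 4 * h : ℕ) : ℝ) ^ 2 ≤ L ^ 2 := pow_le_pow_left₀ (by positivity) hML 2
      have h2 : Real.exp (L / 4) * Real.exp (3 / 4 * L) = n := by
        rw [← Real.exp_add, ← hexpL]
        congr 1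
        ring
      calc 8 * β ^ 2 * ((T + 4 * h : ℕ) : ℝ) ^ 2 * Real.exp ((T + 4 * h : ℕ) : ℝ) ≤
            8 * n * L ^ 2 * (Real.exp (3 / 4 * L) * L ^ 32 * Real.exp 5) := by gcongr
        _ = (32 * Real.exp 5 * L ^ 34) * (Real.exp (3 / 4 * L) * n / 4) := by ring
        _ ≤ Real.exp (L / 4) * (Real.exp (3 / 4 * L) * n / 4) :=
            mul_le_mul_of_nonneg_right F4 (by positivity)
        _ = (Real.exp (L / 4) * Real.exp (3 / 4 * L)) * n / 4 := by ring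
        _ = 1 / 4 * (n : ℝ) ^ 2 := by rw [h2]; ring
    have ec : 60 * β ^ 2 * JJ h (T + 4 * h) / (n : ℝ) ≤ 1 / 4 := by
      rw [div_le_iff₀ hN]
      have hl0 : 0 < l := by linarith
      calc 60 * β ^ 2 * JJ h (T + 4 * h) ≤ 60 * β ^ 2 * (10000 * l ^ 2) :=
            mul_le_mul_of_nonneg_left hJ (by positivity)
        _ ≤ 60 * (n * (1 / (2000 * l)) ^ 2) * (10000 * l ^ 2) := by gcongr
        _ = 3 / 20 * n := by field_simp; norm_num
        _ ≤ 1 / 4 * n := by linarith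
    linarith

open Filter Topology in
theorem params : ∃ c : ℝ, 0 < c ∧ ∃ n₀ : ℕ, ∀ n : ℕ, n₀ ≤ n →
    ∀ β : ℝ, 0 ≤ β → β ≤ c * Real.sqrt n / Real.log (Real.log n) →
    ∃ (T h : ℕ), 2 ≤ n ∧ 1 ≤ h ∧ 2 * (T + 4 * h) ≤ n ∧
      2 * β * Real.exp (-(T : ℝ)) +
      8 * β ^ 2 * ((T + 4 * h : ℕ) : ℝ) ^ 2 * Real.exp ((T + 4 * h : ℕ) : ℝ) / (n : ℝ) ^ 2 +
      60 * β ^ 2 * JJ h (T + 4 * h) / (n : ℝ) < 1 := by
  refine ⟨1 / 2000, by norm_num, ?_⟩
  have hLev : ∀ᶠ L : ℝ in atTop, 1 ≤ Real.log L ∧ 360 * Real.log L ≤ L := by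
    have e1 := Real.tendsto_log_atTop.eventually (eventually_ge_atTop (1 : ℝ))
    have e2 := Par_ev 1 1 360 one_pos (by norm_num)
    filter_upwards [e1, e2] with L h1 h2
    rw [Real.rpow_one, Real.rpow_one] at h2
    exact ⟨h1, h2⟩
  have hNev : ∀ᶠ x : ℝ in atTop, 2 * Real.log x ≤ x ∧
      32 * Real.exp 5 * Real.log x ^ 34 ≤ Real.exp (Real.log x / 4) := by
    have e1 := Par_ev 1 1 2 one_pos (by norm_num)
    have e3 := Par_ev ((34 : ℕ) : ℝ) (1 / 4) (32 * Real.exp 5) (by norm_num) (by positivity)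
    filter_upwards [e1, e3, eventually_gt_atTop (0 : ℝ)] with x h1 h3 hx
    rw [Real.rpow_one, Real.rpow_one] at h1
    rw [Real.rpow_natCast, Real.rpow_def_of_pos hx] at h3
    refine ⟨h1, h3.trans (le_of_eq ?_)⟩
    congr 1
    ring
  have hall : ∀ᶠ n : ℕ in atTop, 0 < n ∧
      (1 ≤ Real.log (Real.log n) ∧ 360 * Real.log (Real.log n) ≤ Real.log n) ∧
      (2 * Real.log n ≤ n ∧ 32 * Real.exp 5 * Real.log n ^ 34 ≤ Real.exp (Real.log n / 4)) := by
    have t1 : Tendsto (fun n : ℕ => (n : ℝ)) atTop atTop := tendsto_natCast_atTop_atTop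
    have t2 : Tendsto (fun n : ℕ => Real.log (n : ℝ)) atTop atTop := Real.tendsto_log_atTop.comp t1
    filter_upwards [eventually_gt_atTop 0, t2.eventually hLev, t1.eventually hNev] with n h1 h2 h3
    exact ⟨h1, h2, h3⟩
  obtain ⟨n₀, hn₀⟩ := eventually_atTop.1 hall
  refine ⟨n₀, fun n hn β h0 hβ => ?_⟩
  obtain ⟨g0, ⟨g1, g2⟩, g3, g4⟩ := hn₀ n hn
  exact Par_det n g0 (Real.log n) (Real.log (Real.log n)) rfl rfl g1 g2 g3 g4 β h0 hβ

end

end PropB2
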